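import Pool.Agent.K1H51.DL.Core7
import Pool.Agent.K1H52.DL.PH
import Pool.Agent.K1H48.DL4.L4
import Pool.Agent.K1H26.DL.Op
import Pool.Agent.K1H9.DL.Var
import Pool.Agent.K1H89.DLSP.E

set_option autoImplicit false

/-!
Assembly, first part.
-/

namespace Pool.Agent.K1H51.DL

theorem t_CORE' : S_CORE := t_CORE Pool.Agent.K1H52.DL.t_PH

theorem t_SUP' : S_SUP := Pool.Agent.K1H89.DLSP.t_SUP t_CORE'

theorem t_VAR' : S_VAR := Pool.Agent.K1H9.DL.t_VAR t_SUP' Pool.Agent.K1H26.DL.t_OP K1H48.DL4.t_L4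

end Pool.Agent.K1H51.DL
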