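import Pool.Agent.K1H51.DL.Stm
import Pool.Agent.Helper242.RK.Int5

set_option autoImplicit false

/-!
Pointwise bounds for the terms of the sum over pairs.
-/

namespace Pool.Agent.K1H51.DL

open Complex (I)
open Pool.Agent.Y969.GP (ht lam PS)

/-- the size of a term -/
noncomputable def Kf (T σ y l : ℝ) : ℝ :=
  (T ^ 4)⁻¹ * ‖Complex.Gamma (4 + σ + I * y)‖ *
    ‖Complex.exp (-((4 + σ + I * y) * Complex.log (((T⁻¹ : ℝ) : ℂ) - I * (l : ℂ))))‖

lemma arctan_ge {x : ℝ} (h0 : 0 ≤ x) (h1 : x ≤ 1) : x / 2 ≤ Real.arctan x := by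
  have hpi := Real.pi_gt_three
  have hc : 1 / 2 ≤ Real.cos (x / 2) := by
    have := Real.one_sub_sq_div_two_le_cos (x := x / 2)
    nlinarith
  have hs : Real.sin (x / 2) ≤ x / 2 := Real.sin_le (by linarith)
  have ht : Real.tan (x / 2) ≤ x := by
    rw [Real.tan_eq_sin_div_cos, div_le_iff₀ (by linarith)]
    nlinarith
  calc x / 2 = Real.arctan (Real.tan (x / 2)) := (Real.arctan_tan (by linarith) (by linarith)).symm
    _ ≤ Real.arctan x := Real.arctan_le_arctan_iff.2 ht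

lemma arctan_ge' {x : ℝ} (h0 : 0 ≤ x) : min 1 x / 2 ≤ Real.arctan x :=
  (arctan_ge (le_min zero_le_one h0) (min_le_left _ _)).trans
    (Real.arctan_le_arctan_iff.2 (min_le_right _ _))

section

variable {T l : ℝ}

lemma r_re (T l : ℝ) : ((((T⁻¹ : ℝ) : ℂ) - I * (l : ℂ))).re = T⁻¹ := by simp
lemma r_im (T l : ℝ) : ((((T⁻¹ : ℝ) : ℂ) - I * (l : ℂ))).im = -l := by simp

lemma r_arg (hT : 0 < T) (l : ℝ) : Complex.arg (((T⁻¹ : ℝ) : ℂ) - I * (l : ℂ)) = -Real.arctan (T * l) := by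
  have h1 : |Complex.arg (((T⁻¹ : ℝ) : ℂ) - I * (l : ℂ))| < Real.pi / 2 :=
    Complex.abs_arg_lt_pi_div_two_iff.2 (Or.inl (by rw [r_re]; positivity))
  rw [abs_lt] at h1
  have h2 := Complex.tan_arg (((T⁻¹ : ℝ) : ℂ) - I * (l : ℂ))
  rw [r_re, r_im] at h2
  have h3 : -l / T⁻¹ = -(T * l) := by field_simp
  rw [h3] at h2
  rw [← Real.arctan_neg, ← h2, Real.arctan_tan h1.1 h1.2]

lemma r_norm (hT : 0 < T) (l : ℝ) : |l| ≤ ‖((T⁻¹ : ℝ) : ℂ) - I * (l : ℂ)‖ := by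
  have h := Complex.abs_im_le_norm (((T⁻¹ : ℝ) : ℂ) - I * (l : ℂ))
  rw [r_im, abs_neg] at h
  exact h

lemma r_norm2 (hT : 0 < T) (l : ℝ) : T⁻¹ ≤ ‖((T⁻¹ : ℝ) : ℂ) - I * (l : ℂ)‖ := by
  have h := Complex.abs_re_le_norm (((T⁻¹ : ℝ) : ℂ) - I * (l : ℂ))
  rw [r_re, abs_of_pos (by positivity)] at h
  exact h

/-- the norm of the exponential -/
lemma norm_ex (hT : 0 < T) (σ y l : ℝ) :
    ‖Complex.exp (-((4 + σ + I * y) * Complex.log (((T⁻¹ : ℝ) : ℂ) - I * (l : ℂ))))‖ =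
      ‖((T⁻¹ : ℝ) : ℂ) - I * (l : ℂ)‖ ^ (-(4 + σ)) * Real.exp (-(y * Real.arctan (T * l))) := by
  have hr : 0 < ‖((T⁻¹ : ℝ) : ℂ) - I * (l : ℂ)‖ := lt_of_lt_of_le (by positivity) (r_norm2 hT l)
  rw [Complex.norm_exp]
  have h1 : (-((4 + (σ : ℂ) + I * y) * Complex.log (((T⁻¹ : ℝ) : ℂ) - I * (l : ℂ)))).re =
      Real.log ‖((T⁻¹ : ℝ) : ℂ) - I * (l : ℂ)‖ * (-(4 + σ)) + -(y * Real.arctan (T * l)) := by
    rw [Complex.neg_re, Complex.mul_re, Complex.log_re, Complex.log_im, r_arg hT]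
    simp
    ring
  rw [h1, Real.exp_add, Real.rpow_def_of_pos hr]

lemma Kf_nonneg (hT : 0 < T) (σ y l : ℝ) : 0 ≤ Kf T σ y l := by
  unfold Kf
  positivity

end

/-- general bound -/
lemma Kf_le {σ : ℝ} (hσ : 0 < σ) : ∃ C : ℝ, 1 ≤ C ∧ ∀ T y l : ℝ, 0 < T → l ≠ 0 →
    Kf T σ y l ≤ C * ((T ^ 4)⁻¹ * (1 + |y|) ^ (7 / 2 + σ) * |l| ^ (-(4 + σ)) *
      Real.exp (-(|y| * (min 1 (T * |l|)⁻¹ / 2)))) ∧
    (0 ≤ y * l → Kf T σ y l ≤ C * ((T ^ 4)⁻¹ * (1 + |y|) ^ (7 / 2 + σ) * |l| ^ (-(4 + σ)) *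
      Real.exp (-(Real.pi / 2 * |y|)))) := by
  obtain ⟨C, hC, h⟩ := Pool.Agent.Helper242.RK.Gamma_upper (σ := 4 + σ) (by linarith)
  refine ⟨1 + C, by linarith, fun T y l hT hl => ?_⟩
  have hl' : 0 < |l| := abs_pos.2 hl
  have hr := r_norm hT l
  have h1 : ‖((T⁻¹ : ℝ) : ℂ) - I * (l : ℂ)‖ ^ (-(4 + σ)) ≤ |l| ^ (-(4 + σ)) :=
    Real.rpow_le_rpow_of_nonpos hl' hr (by linarith)
  have h2 : ‖Complex.Gamma (4 + σ + I * y)‖ ≤
      C * (1 + |y|) ^ (7 / 2 + σ) * Real.exp (-(Real.pi / 2 * |y|)) := by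
    have := h y
    have e1 : (((4 + σ : ℝ) : ℂ) + y * I) = 4 + σ + I * y := by push_cast; ring
    rw [e1] at this
    rw [show (7 : ℝ) / 2 + σ = 4 + σ - 1 / 2 by ring]
    exact this
  have hK : Kf T σ y l ≤ (T ^ 4)⁻¹ * (C * (1 + |y|) ^ (7 / 2 + σ) * Real.exp (-(Real.pi / 2 * |y|))) *
      (|l| ^ (-(4 + σ)) * Real.exp (-(y * Real.arctan (T * l)))) := by
    unfold Kf
    rw [norm_ex hT]
    gcongr
  have hK2 : Kf T σ y l ≤ (1 + C) * ((T ^ 4)⁻¹ * (1 + |y|) ^ (7 / 2 + σ) * |l| ^ (-(4 + σ)) *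
      (Real.exp (-(Real.pi / 2 * |y|)) * Real.exp (-(y * Real.arctan (T * l))))) := by
    refine hK.trans ?_
    have h3 : 0 ≤ (T ^ 4)⁻¹ * (1 + |y|) ^ (7 / 2 + σ) * |l| ^ (-(4 + σ)) *
      (Real.exp (-(Real.pi / 2 * |y|)) * Real.exp (-(y * Real.arctan (T * l)))) := by positivity
    nlinarith
  constructor
  · refine hK2.trans ?_
    have h4 : Real.exp (-(Real.pi / 2 * |y|)) * Real.exp (-(y * Real.arctan (T * l))) ≤
        Real.exp (-(|y| * (min 1 (T * |l|)⁻¹ / 2))) := by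
      rw [← Real.exp_add, Real.exp_le_exp]
      have h5 : -(y * Real.arctan (T * l)) ≤ |y| * Real.arctan (T * |l|) := by
        have e1 : |Real.arctan (T * l)| = Real.arctan (T * |l|) := by
          rcases le_total 0 l with h0 | h0
          · rw [abs_of_nonneg h0, abs_of_nonneg (Real.arctan_nonneg.2 (by positivity))]
          · rw [abs_of_nonpos h0, abs_of_nonpos (Real.arctan_le_zero.2 (by nlinarith)), ← Real.arctan_neg]
            congr 1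
            ring
        calc -(y * Real.arctan (T * l)) ≤ |y * Real.arctan (T * l)| := neg_le_abs _
          _ = |y| * Real.arctan (T * |l|) := by rw [abs_mul, e1]
      have h6 : min 1 (T * |l|)⁻¹ / 2 ≤ Real.arctan (T * |l|)⁻¹ := arctan_ge' (by positivity)
      rw [Real.arctan_inv_of_pos (by positivity)] at h6
      have h7 := mul_le_mul_of_nonneg_left h6 (abs_nonneg y)
      nlinarith
    gcongr
  · intro hyl
    refine hK2.trans ?_
    have h4 : Real.exp (-(y * Real.arctan (T * l))) ≤ 1 := by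
      rw [Real.exp_le_one_iff]
      have : 0 ≤ y * Real.arctan (T * l) := by
        rcases le_total 0 l with h0 | h0
        · have hl2 : 0 < l := lt_of_le_of_ne h0 (Ne.symm hl)
          have hy : 0 ≤ y := nonneg_of_mul_nonneg_left hyl hl2
          exact mul_nonneg hy (Real.arctan_nonneg.2 (by positivity))
        · have hl2 : l < 0 := lt_of_le_of_ne h0 hl
          have hy : y ≤ 0 := by nlinarith
          exact mul_nonneg_of_nonpos_of_nonpos hy (Real.arctan_le_zero.2 (by nlinarith))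
      linarith
    have h5 : Real.exp (-(Real.pi / 2 * |y|)) * Real.exp (-(y * Real.arctan (T * l))) ≤
        Real.exp (-(Real.pi / 2 * |y|)) := by
      exact mul_le_of_le_one_right (Real.exp_pos _).le h4
    gcongr

lemma pow5_le (x : ℝ) (hx : 0 ≤ x) : (1 + x) ^ 5 ≤ 300000 * Real.exp (x / 4) := by
  have h := Real.pow_div_factorial_le_exp ((1 + x) / 4) (by positivity) 5
  have h1 : ((1 + x) / 4) ^ 5 / (Nat.factorial 5 : ℝ) = (1 + x) ^ 5 / 122880 := by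
    norm_num [Nat.factorial]
    ring
  rw [h1] at h
  have h2 : Real.exp ((1 + x) / 4) = Real.exp (1 / 4) * Real.exp (x / 4) := by
    rw [← Real.exp_add]; ring_nf
  rw [h2] at h
  have h3 : Real.exp (1 / 4 : ℝ) ≤ 2 := by
    have := Real.exp_one_lt_d9
    have h4 : Real.exp (1 / 4 : ℝ) ≤ Real.exp (1 / 2 : ℝ) := Real.exp_le_exp.2 (by norm_num)
    have h5 : Real.exp (1 / 2 : ℝ) * Real.exp (1 / 2 : ℝ) = Real.exp 1 := by rw [← Real.exp_add]; norm_num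
    nlinarith [Real.exp_pos (1 / 2 : ℝ)]
  have h6 := Real.exp_pos (x / 4)
  rw [div_le_iff₀ (by norm_num)] at h
  nlinarith

/-- the two bounds in the range `T |l| ≥ 1` -/
lemma Kf_big {σ : ℝ} (hσ : 0 < σ) (hσ1 : σ ≤ 1) : ∃ C : ℝ, 1 ≤ C ∧ ∀ T y l : ℝ, 1 ≤ T → 1 ≤ T * |l| →
    Kf T σ y l ≤ C * (T ^ σ * (1 + |y|) ^ (1 / 2 : ℝ) / (T * |l|)) ∧
    Kf T σ y l ≤ C * (T ^ σ * Real.exp (-((1 + |y|) / (T * |l|) / 4))) := by
  obtain ⟨C, hC, h⟩ := Kf_le hσ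
  refine ⟨C * 600000, by nlinarith, fun T y l hT hTl => ?_⟩
  have hT0 : 0 < T := by linarith
  have hl : l ≠ 0 := by
    rintro rfl
    simp at hTl
    linarith
  have hl' : 0 < |l| := abs_pos.2 hl
  have hq : 0 < 1 + |y| := by positivity
  have hTl0 : 0 < T * |l| := by positivity
  set x := (1 + |y|) / (T * |l|) with hx
  have hx0 : 0 < x := by positivity
  -- rewrite
  have e1 : (T ^ 4)⁻¹ * (1 + |y|) ^ (7 / 2 + σ) * |l| ^ (-(4 + σ)) =
      T ^ σ * (1 + |y|) ^ (-(1 / 2) : ℝ) * x ^ (4 + σ) := by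
    rw [hx, Real.div_rpow hq.le hTl0.le, Real.mul_rpow hT0.le hl'.le, Real.rpow_neg hl'.le,
      show (7 : ℝ) / 2 + σ = -(1 / 2) + (4 + σ) by ring, Real.rpow_add hq, Real.rpow_add hT0]
    have h4 : T ^ (4 : ℝ) = T ^ 4 := by exact_mod_cast Real.rpow_natCast T 4
    rw [h4]
    have := Real.rpow_pos_of_pos hT0 σ
    field_simp
  have e2 : Real.exp (-(|y| * (min 1 (T * |l|)⁻¹ / 2))) ≤ 2 * Real.exp (-(x / 2)) := by
    have h1 : min 1 (T * |l|)⁻¹ = (T * |l|)⁻¹ := min_eq_right (inv_le_one_of_one_le₀ hTl)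
    rw [h1]
    have h2 : -(|y| * ((T * |l|)⁻¹ / 2)) = -(x / 2) + (T * |l|)⁻¹ / 2 := by
      rw [hx]
      field_simp
      ring
    rw [h2, Real.exp_add]
    have h3 : Real.exp ((T * |l|)⁻¹ / 2) ≤ 2 := by
      have h4 : (T * |l|)⁻¹ ≤ 1 := inv_le_one_of_one_le₀ hTl
      have h5 : Real.exp ((T * |l|)⁻¹ / 2) ≤ Real.exp (1 / 2 : ℝ) := Real.exp_le_exp.2 (by linarith)
      have := Real.exp_one_lt_d9
      have h6 : Real.exp (1 / 2 : ℝ) * Real.exp (1 / 2 : ℝ) = Real.exp 1 := by rw [← Real.exp_add]; norm_num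
      nlinarith [Real.exp_pos (1 / 2 : ℝ)]
    have := Real.exp_pos (-(x / 2))
    nlinarith
  have hb := (h T y l hT0 hl).1
  rw [e1] at hb
  have hTs := Real.rpow_pos_of_pos hT0 σ
  have hqs := Real.rpow_pos_of_pos hq (-(1 / 2) : ℝ)
  have hb2 : Kf T σ y l ≤ C * (T ^ σ * (1 + |y|) ^ (-(1 / 2) : ℝ) * x ^ (4 + σ) * (2 * Real.exp (-(x / 2)))) :=
    hb.trans (by gcongr)
  -- `x ^ (4 + σ) ≤ x (1 + x) ^ 4`
  have h5 : x ^ (4 + σ) ≤ x * (1 + x) ^ 4 := by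
    have h6 : x ^ (4 + σ) = x * x ^ (3 + σ) := by
      rw [show (4 : ℝ) + σ = 1 + (3 + σ) by ring, Real.rpow_add hx0, Real.rpow_one]
    rw [h6]
    have h7 : x ^ (3 + σ) ≤ (1 + x) ^ (3 + σ) := Real.rpow_le_rpow hx0.le (by linarith) (by linarith)
    have h8 : (1 + x) ^ (3 + σ) ≤ (1 + x) ^ (4 : ℝ) :=
      Real.rpow_le_rpow_of_exponent_le (by linarith) (by linarith)
    have h9 : (1 + x) ^ (4 : ℝ) = (1 + x) ^ 4 := by exact_mod_cast Real.rpow_natCast (1 + x) 4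
    rw [h9] at h8
    exact mul_le_mul_of_nonneg_left (h7.trans h8) hx0.le
  have h10 := pow5_le x hx0.le
  have h11 : Real.exp (x / 4) * Real.exp (-(x / 2)) = Real.exp (-(x / 4)) := by
    rw [← Real.exp_add]; ring_nf
  have h12 : (1 + x) ^ 5 * Real.exp (-(x / 2)) ≤ 300000 * Real.exp (-(x / 4)) := by
    calc (1 + x) ^ 5 * Real.exp (-(x / 2)) ≤ 300000 * Real.exp (x / 4) * Real.exp (-(x / 2)) := by gcongr
      _ = _ := by rw [mul_assoc, h11]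
  have h13 : Real.exp (-(x / 4)) ≤ 1 := by rw [Real.exp_le_one_iff]; linarith
  have hC0 : 0 ≤ C := by linarith
  constructor
  · have h14 : x ^ (4 + σ) * (2 * Real.exp (-(x / 2))) ≤ 600000 * x := by
      calc x ^ (4 + σ) * (2 * Real.exp (-(x / 2))) ≤ x * (1 + x) ^ 4 * (2 * Real.exp (-(x / 2))) := by gcongr
        _ = 2 * x * ((1 + x) ^ 4 * Real.exp (-(x / 2))) := by ring
        _ ≤ 2 * x * ((1 + x) ^ 5 * Real.exp (-(x / 2))) := by
            gcongr ?_ * (?_ * ?_)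
            exact pow_le_pow_right₀ (by linarith) (by norm_num)
        _ ≤ 2 * x * (300000 * 1) := by
            refine mul_le_mul_of_nonneg_left (h12.trans ?_) (by positivity)
            gcongr
        _ = 600000 * x := by ring
    have e3 : (1 + |y|) ^ (-(1 / 2) : ℝ) * x = (1 + |y|) ^ (1 / 2 : ℝ) / (T * |l|) := by
      rw [hx, show (1 / 2 : ℝ) = -(1 / 2) + 1 by norm_num, Real.rpow_add hq, Real.rpow_one]
      norm_num
      ring
    calc Kf T σ y l ≤ C * (T ^ σ * (1 + |y|) ^ (-(1 / 2) : ℝ) * x ^ (4 + σ) * (2 * Real.exp (-(x / 2)))) := hb2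
      _ = C * (T ^ σ * (1 + |y|) ^ (-(1 / 2) : ℝ)) * (x ^ (4 + σ) * (2 * Real.exp (-(x / 2)))) := by ring
      _ ≤ C * (T ^ σ * (1 + |y|) ^ (-(1 / 2) : ℝ)) * (600000 * x) := by gcongr
      _ = C * 600000 * (T ^ σ * ((1 + |y|) ^ (-(1 / 2) : ℝ) * x)) := by ring
      _ = _ := by rw [e3]; ring
  · have h14 : x ^ (4 + σ) * (2 * Real.exp (-(x / 2))) ≤ 600000 * Real.exp (-(x / 4)) := by
      calc x ^ (4 + σ) * (2 * Real.exp (-(x / 2))) ≤ x * (1 + x) ^ 4 * (2 * Real.exp (-(x / 2))) := by gcongr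
        _ ≤ (1 + x) * (1 + x) ^ 4 * (2 * Real.exp (-(x / 2))) := by gcongr; linarith
        _ = 2 * ((1 + x) ^ 5 * Real.exp (-(x / 2))) := by ring
        _ ≤ 2 * (300000 * Real.exp (-(x / 4))) := by gcongr
        _ = _ := by ring
    have h15 : (1 + |y|) ^ (-(1 / 2) : ℝ) ≤ 1 :=
      Real.rpow_le_one_of_one_le_of_nonpos (by linarith [abs_nonneg y]) (by norm_num)
    calc Kf T σ y l ≤ C * (T ^ σ * (1 + |y|) ^ (-(1 / 2) : ℝ) * x ^ (4 + σ) * (2 * Real.exp (-(x / 2)))) := hb2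
      _ = C * (T ^ σ * (1 + |y|) ^ (-(1 / 2) : ℝ)) * (x ^ (4 + σ) * (2 * Real.exp (-(x / 2)))) := by ring
      _ ≤ C * (T ^ σ * 1) * (600000 * Real.exp (-(x / 4))) := by gcongr
      _ = _ := by ring

end Pool.Agent.K1H51.DL
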