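import Pool.Agent.K1H51.DL.Core1
import Pool.Agent.Y379.GP.Sp

set_option autoImplicit false

/-!
Sums over pairs.
-/

namespace Pool.Agent.K1H51.DL

open Finset
open Complex (I)
open Pool.Agent.Y969.GP (ht lam PS)

lemma mem_PS {X : ℕ} {p : ℕ × ℕ} : p ∈ PS X ↔ 1 ≤ p.1 ∧ 1 ≤ p.2 ∧ p.1 * p.2 ≤ X := by
  unfold PS
  rw [mem_filter, mem_product, mem_Icc, mem_Icc]
  constructor
  · rintro ⟨⟨⟨h1, -⟩, ⟨h2, -⟩⟩, h3⟩
    exact ⟨h1, h2, h3⟩
  · rintro ⟨h1, h2, h3⟩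
    refine ⟨⟨⟨h1, ?_⟩, ⟨h2, ?_⟩⟩, h3⟩
    · exact (Nat.le_mul_of_pos_right _ h2).trans h3
    · exact (Nat.le_mul_of_pos_left _ h1).trans h3

lemma harmI (X : ℕ) : ∑ k ∈ Icc 1 X, 1 / (k : ℝ) ≤ 1 + Real.log X := by
  have h := harmonic_le_one_add_log X
  have e : ((harmonic X : ℚ) : ℝ) = ∑ k ∈ Icc 1 X, 1 / (k : ℝ) := by
    rw [harmonic_eq_sum_Icc]
    push_cast
    refine sum_congr rfl fun k _ => ?_
    rw [one_div]
  rw [← e]
  exact h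

lemma ht_one {X : ℕ} {p : ℕ × ℕ} (hp : p ∈ PS X) : 1 ≤ ht p := by
  obtain ⟨h1, h2, -⟩ := mem_PS.1 hp
  unfold ht
  have a : (1 : ℝ) ≤ p.1 := by exact_mod_cast h1
  have b : (1 : ℝ) ≤ p.2 := by exact_mod_cast h2
  nlinarith

lemma swap_mem {X : ℕ} {p : ℕ × ℕ} (hp : p ∈ PS X) : p.swap ∈ PS X := by
  rw [mem_PS] at hp ⊢
  obtain ⟨h1, h2, h3⟩ := hp
  exact ⟨h2, h1, by simpa [mul_comm] using h3⟩

lemma ht_swap (p : ℕ × ℕ) : ht p.swap = ht p := by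
  unfold ht
  simp [mul_comm]

lemma lam_swap (p : ℕ × ℕ) : lam p.swap = -lam p := by
  unfold lam
  simp

/-- the sum over the pairs in terms of the sizes -/
lemma Sg_le {T σ : ℝ} (hT : 0 < T) (hσ : 0 ≤ σ) (X : ℕ) (τ y : ℝ) : ‖Sg X T σ τ y‖ ≤
    ∑ p ∈ (PS X).filter (fun p => p.1 ≠ p.2), (√(ht p))⁻¹ * Kf T σ y (lam p) := by
  unfold Sg
  rw [mul_sum]
  refine (norm_sum_le _ _).trans (sum_le_sum fun p hp => ?_)
  have hp1 := ht_one (mem_filter.1 hp).1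
  rw [norm_mul, norm_mul, norm_mul, Complex.norm_real, Real.norm_of_nonneg (by positivity)]
  have h1 : ‖Complex.exp (-((1 / 2 + (σ : ℂ) + I * (τ : ℂ)) * ((Real.log (ht p) : ℝ) : ℂ)))‖ ≤ (√(ht p))⁻¹ := by
    rw [Complex.norm_exp]
    have e1 : (-((1 / 2 + (σ : ℂ) + I * (τ : ℂ)) * ((Real.log (ht p) : ℝ) : ℂ))).re =
        -(1 / 2 * Real.log (ht p)) - σ * Real.log (ht p) := by
      rw [Complex.neg_re, Complex.re_mul_ofReal]
      simp
      ring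
    have e2 : (√(ht p))⁻¹ = Real.exp (-(1 / 2 * Real.log (ht p))) := by
      rw [Real.exp_neg, Real.sqrt_eq_rpow, Real.rpow_def_of_pos (by linarith)]
      ring_nf
    rw [e1, e2, Real.exp_le_exp]
    have : 0 ≤ σ * Real.log (ht p) := mul_nonneg hσ (Real.log_nonneg hp1)
    linarith
  unfold Kf
  calc (T ^ 4)⁻¹ * ‖Complex.Gamma (4 + σ + I * y)‖ *
      (‖Complex.exp (-((1 / 2 + (σ : ℂ) + I * (τ : ℂ)) * ((Real.log (ht p) : ℝ) : ℂ)))‖ *
        ‖Complex.exp (-((4 + σ + I * y) * Complex.log (((T⁻¹ : ℝ) : ℂ) - I * ((lam p : ℝ) : ℂ))))‖)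
      ≤ (T ^ 4)⁻¹ * ‖Complex.Gamma (4 + σ + I * y)‖ * ((√(ht p))⁻¹ *
        ‖Complex.exp (-((4 + σ + I * y) * Complex.log (((T⁻¹ : ℝ) : ℂ) - I * ((lam p : ℝ) : ℂ))))‖) := by
        gcongr
    _ = _ := by ring

/-- sums over ordered pairs -/
lemma pairs_lt (X : ℕ) (g : ℕ → ℕ → ℝ) (hg : ∀ m h, 0 ≤ g m h) :
    ∑ p ∈ (PS X).filter (fun p => p.1 < p.2), g p.1 (p.2 - p.1) ≤ ∑ m ∈ Icc 1 X, ∑ h ∈ Icc 1 X, g m h := by
  classical
  rw [← sum_product' (Icc 1 X) (Icc 1 X) g]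
  have hinj : Set.InjOn (fun p : ℕ × ℕ => (p.1, p.2 - p.1)) ((PS X).filter (fun p => p.1 < p.2) : Set (ℕ × ℕ)) := by
    intro p hp q hq hpq
    simp only [coe_filter, Set.mem_ofPred_eq] at hp hq
    simp only [Prod.mk.injEq] at hpq
    obtain ⟨h1, h2⟩ := hpq
    ext
    · exact h1
    · omega
  calc ∑ p ∈ (PS X).filter (fun p => p.1 < p.2), g p.1 (p.2 - p.1) =
      ∑ q ∈ ((PS X).filter (fun p => p.1 < p.2)).image (fun p : ℕ × ℕ => (p.1, p.2 - p.1)), g q.1 q.2 := by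
        rw [sum_image hinj]
    _ ≤ ∑ q ∈ Icc 1 X ×ˢ Icc 1 X, g q.1 q.2 := by
        apply sum_le_sum_of_subset_of_nonneg
        · intro q hq
          obtain ⟨p, hp, rfl⟩ := mem_image.1 hq
          obtain ⟨hp1, hp2⟩ := mem_filter.1 hp
          obtain ⟨h1, h2, h3⟩ := mem_PS.1 hp1
          rw [mem_product, mem_Icc, mem_Icc]
          have h4 : p.1 ≤ X := (Nat.le_mul_of_pos_right _ h2).trans h3
          have h5 : p.2 ≤ X := (Nat.le_mul_of_pos_left _ h1).trans h3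
          refine ⟨⟨h1, h4⟩, ?_, ?_⟩ <;> simp only <;> omega
        · intro q _ _
          exact hg _ _

/-- symmetric sums -/
lemma pairs_sym (X : ℕ) (f : ℕ × ℕ → ℝ) (hf : ∀ p, f p.swap = f p) :
    ∑ p ∈ (PS X).filter (fun p => p.1 ≠ p.2), f p = 2 * ∑ p ∈ (PS X).filter (fun p => p.1 < p.2), f p := by
  classical
  have h1 : (PS X).filter (fun p => p.1 ≠ p.2) =
      (PS X).filter (fun p => p.1 < p.2) ∪ (PS X).filter (fun p => p.2 < p.1) := by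
    ext p
    simp only [mem_union, mem_filter]
    constructor
    · rintro ⟨a, b⟩
      rcases lt_or_gt_of_ne b with h | h
      · exact Or.inl ⟨a, h⟩
      · exact Or.inr ⟨a, h⟩
    · rintro (⟨a, b⟩ | ⟨a, b⟩)
      · exact ⟨a, b.ne⟩
      · exact ⟨a, b.ne'⟩
  have h2 : Disjoint ((PS X).filter (fun p => p.1 < p.2)) ((PS X).filter (fun p => p.2 < p.1)) := by
    rw [disjoint_filter]
    intro p _ h h'
    omega
  have h3 : ∑ p ∈ (PS X).filter (fun p => p.2 < p.1), f p = ∑ p ∈ (PS X).filter (fun p => p.1 < p.2), f p := by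
    refine sum_nbij' Prod.swap Prod.swap ?_ ?_ ?_ ?_ ?_
    · intro p hp
      obtain ⟨a, b⟩ := mem_filter.1 hp
      exact mem_filter.2 ⟨swap_mem a, b⟩
    · intro p hp
      obtain ⟨a, b⟩ := mem_filter.1 hp
      exact mem_filter.2 ⟨swap_mem a, b⟩
    · intro p _; exact Prod.swap_swap p
    · intro p _; exact Prod.swap_swap p
    · intro p _; exact (hf p).symm
  rw [h1, sum_union h2, h3]
  ring

/-- the frequencies of ordered pairs -/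
lemma lam_lt {X : ℕ} {p : ℕ × ℕ} (hp : p ∈ PS X) (h : p.1 < p.2) :
    ((p.2 - p.1 : ℕ) : ℝ) / p.2 ≤ lam p ∧ lam p ≤ Real.log X ∧ 1 / (2 * √X) ≤ lam p ∧
      (√(ht p))⁻¹ * ((p.2 : ℝ) / ((p.2 - p.1 : ℕ) : ℝ)) ≤ √X * (1 / (p.1 : ℝ) * (1 / ((p.2 - p.1 : ℕ) : ℝ))) := by
  obtain ⟨h1, h2, h3⟩ := mem_PS.1 hp
  have a1 : (1 : ℝ) ≤ p.1 := by exact_mod_cast h1
  have a2 : (1 : ℝ) ≤ p.2 := by exact_mod_cast h2
  have a3 : (p.1 : ℝ) * p.2 ≤ X := by exact_mod_cast h3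
  have a4 : (p.1 : ℝ) + 1 ≤ p.2 := by exact_mod_cast h
  have e : ((p.2 - p.1 : ℕ) : ℝ) = (p.2 : ℝ) - p.1 := by
    rw [Nat.cast_sub h.le]
  rw [e]
  have hX : (1 : ℝ) ≤ X := by nlinarith
  have b1 : ((p.2 : ℝ) - p.1) / p.2 ≤ lam p := by
    unfold lam
    have := Real.log_le_sub_one_of_pos (x := (p.1 : ℝ) / p.2) (by positivity)
    rw [Real.log_div (by positivity) (by positivity)] at this
    have e2 : ((p.2 : ℝ) - p.1) / p.2 = 1 - p.1 / p.2 := by field_simp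
    rw [e2]
    linarith
  refine ⟨b1, ?_, ?_, ?_⟩
  · unfold lam
    have := Real.log_nonneg a1
    have h5 : Real.log p.2 ≤ Real.log X := Real.log_le_log (by positivity) (by nlinarith)
    linarith
  · -- `lam p ≥ log (1 + 1/m)`
    have b2 : 1 / (2 * (p.1 : ℝ)) ≤ lam p := by
      have c1 : Real.log ((p.1 : ℝ) + 1) ≤ Real.log p.2 := Real.log_le_log (by positivity) a4
      have c2 := Real.log_le_sub_one_of_pos (x := (p.1 : ℝ) / (p.1 + 1)) (by positivity)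
      rw [Real.log_div (by positivity) (by positivity)] at c2
      have c3 : 1 / (2 * (p.1 : ℝ)) ≤ 1 - p.1 / (p.1 + 1) := by
        rw [show 1 - (p.1 : ℝ) / (p.1 + 1) = 1 / (p.1 + 1) by field_simp; ring]
        apply one_div_le_one_div_of_le (by positivity)
        linarith
      unfold lam
      linarith
    refine le_trans ?_ b2
    apply one_div_le_one_div_of_le (by positivity)
    have : (p.1 : ℝ) ≤ √X := by
      apply Real.le_sqrt_of_sq_le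
      nlinarith
    linarith
  · have hd : 0 < (p.2 : ℝ) - p.1 := by linarith
    have b3 : (√(ht p))⁻¹ * (p.2 : ℝ) ≤ √X * (1 / (p.1 : ℝ)) := by
      have hh : 0 < ht p := by unfold ht; positivity
      have hs : 0 < √(ht p) := Real.sqrt_pos.2 hh
      rw [inv_mul_le_iff₀ hs]
      have c1 : √(ht p) * (√X * (1 / (p.1 : ℝ))) = √(ht p * X) / p.1 := by
        rw [Real.sqrt_mul hh.le]; ring
      rw [c1, le_div_iff₀ (by positivity)]
      apply Real.le_sqrt_of_sq_le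
      unfold ht
      nlinarith [mul_le_mul_of_nonneg_left a3 (by positivity : 0 ≤ (p.1 : ℝ) * p.2)]
    calc (√(ht p))⁻¹ * ((p.2 : ℝ) / ((p.2 : ℝ) - p.1)) = (√(ht p))⁻¹ * (p.2 : ℝ) * (1 / ((p.2 : ℝ) - p.1)) := by ring
      _ ≤ √X * (1 / (p.1 : ℝ)) * (1 / ((p.2 : ℝ) - p.1)) := by gcongr
      _ = _ := by ring

/-- the sum of the case I -/
lemma sum_inv_lam (X : ℕ) : ∑ p ∈ (PS X).filter (fun p => p.1 ≠ p.2), (√(ht p))⁻¹ * (1 / |lam p|) ≤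
    2 * (√X * (1 + Real.log X) ^ 2) := by
  rw [pairs_sym X _ (fun p => by rw [ht_swap, lam_swap, abs_neg])]
  have h1 : ∑ p ∈ (PS X).filter (fun p => p.1 < p.2), (√(ht p))⁻¹ * (1 / |lam p|) ≤
      ∑ p ∈ (PS X).filter (fun p => p.1 < p.2), √X * (1 / (p.1 : ℝ) * (1 / ((p.2 - p.1 : ℕ) : ℝ))) := by
    refine sum_le_sum fun p hp => ?_
    obtain ⟨a, b⟩ := mem_filter.1 hp
    obtain ⟨c1, -, c3, c4⟩ := lam_lt a b
    obtain ⟨d1, d2, -⟩ := mem_PS.1 a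
    have hd : (0 : ℝ) < ((p.2 - p.1 : ℕ) : ℝ) := by exact_mod_cast (by omega : 0 < p.2 - p.1)
    have hp2 : (0 : ℝ) < p.2 := by exact_mod_cast d2
    have hl : 0 < lam p := lt_of_lt_of_le (by positivity) c1
    refine le_trans ?_ c4
    rw [abs_of_pos hl]
    refine mul_le_mul_of_nonneg_left ?_ (inv_nonneg.2 (Real.sqrt_nonneg _))
    rw [div_le_div_iff₀ hl hd, one_mul]
    rw [div_le_iff₀ hp2] at c1
    linarith
  have h2 := pairs_lt X (fun m h => √X * (1 / (m : ℝ) * (1 / (h : ℝ)))) (fun m h => by positivity)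
  have h3 : ∑ m ∈ Icc 1 X, ∑ h ∈ Icc 1 X, √X * (1 / (m : ℝ) * (1 / (h : ℝ))) =
      √X * ((∑ m ∈ Icc 1 X, 1 / (m : ℝ)) * ∑ h ∈ Icc 1 X, 1 / (h : ℝ)) := by
    rw [sum_mul_sum, mul_sum]
    refine sum_congr rfl fun m _ => ?_
    rw [mul_sum]
  have h4 := harmI X
  have h5 : 0 ≤ ∑ m ∈ Icc 1 X, 1 / (m : ℝ) := sum_nonneg fun _ _ => by positivity
  have h6 : (∑ m ∈ Icc 1 X, 1 / (m : ℝ)) * ∑ h ∈ Icc 1 X, 1 / (h : ℝ) ≤ (1 + Real.log X) ^ 2 := by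
    rw [sq]
    exact mul_le_mul h4 h4 h5 (h5.trans h4)
  have h7 := Real.sqrt_nonneg (X : ℝ)
  calc 2 * ∑ p ∈ (PS X).filter (fun p => p.1 < p.2), (√(ht p))⁻¹ * (1 / |lam p|) ≤
      2 * (√X * ((∑ m ∈ Icc 1 X, 1 / (m : ℝ)) * ∑ h ∈ Icc 1 X, 1 / (h : ℝ))) := by
        rw [← h3]
        linarith [h1.trans h2]
    _ ≤ _ := by gcongr

lemma card_PS (X : ℕ) : ((PS X).card : ℝ) ≤ (X : ℝ) ^ 2 := by
  have h : PS X ⊆ Icc 1 X ×ˢ Icc 1 X := filter_subset _ _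
  have h2 := card_le_card h
  rw [card_product, Nat.card_Icc, Nat.add_sub_cancel] at h2
  calc ((PS X).card : ℝ) ≤ ((X * X : ℕ) : ℝ) := by exact_mod_cast h2
    _ = _ := by push_cast; ring

/-- frequencies in absolute value -/
lemma lam_abs {X : ℕ} {p : ℕ × ℕ} (hp : p ∈ PS X) (h : p.1 ≠ p.2) :
    |lam p| ≤ Real.log X ∧ 1 / (2 * √X) ≤ |lam p| := by
  rcases lt_or_gt_of_ne h with h | h
  · obtain ⟨-, c2, c3, -⟩ := lam_lt hp h
    have : 0 ≤ lam p := le_trans (by positivity) c3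
    rw [abs_of_nonneg this]
    exact ⟨c2, c3⟩
  · obtain ⟨-, c2, c3, -⟩ := lam_lt (swap_mem hp) h
    rw [lam_swap] at c2 c3
    have : 0 ≤ -lam p := le_trans (by positivity) c3
    rw [abs_of_nonpos (by linarith)]
    exact ⟨c2, c3⟩

end Pool.Agent.K1H51.DL
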