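import Pool.Agent.K1H51.DL.Stm
import Pool.Agent.H221R2.FB_VdcGen

set_option autoImplicit false

/-!
Exponential sums over blocks, with amplitudes.
-/

namespace Pool.Agent.K1H51.DL

open Finset
open Complex (I)
open Pool.Agent.H469R2.NK (e norm_e)

/-- partial summation -/
lemma abel {a c : ℕ → ℂ} {L : ℕ} {A0 A1 B : ℝ} (hB : ∀ l ≤ L, ‖∑ k ∈ range l, c k‖ ≤ B)
    (h0 : ∀ k ≤ L, ‖a k‖ ≤ A0) (h1 : ∀ k < L, ‖a (k + 1) - a k‖ ≤ A1) :
    ‖∑ k ∈ range L, a k * c k‖ ≤ (A0 + L * A1) * B := by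
  have key : ∀ l : ℕ, ∑ k ∈ range l, a k * c k =
      a l * ∑ k ∈ range l, c k - ∑ k ∈ range l, (a (k + 1) - a k) * ∑ i ∈ range (k + 1), c i := by
    intro l
    induction l with
    | zero => simp
    | succ l ih =>
      rw [sum_range_succ, ih, sum_range_succ (fun k => (a (k + 1) - a k) * ∑ i ∈ range (k + 1), c i),
        sum_range_succ c]
      ring
  rw [key L]
  have hB0 : 0 ≤ B := (norm_nonneg _).trans (hB 0 (Nat.zero_le _))
  refine (norm_sub_le _ _).trans ?_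
  have e1 : ‖a L * ∑ k ∈ range L, c k‖ ≤ A0 * B := by
    rw [norm_mul]
    exact mul_le_mul (h0 L le_rfl) (hB L le_rfl) (norm_nonneg _) ((norm_nonneg _).trans (h0 L le_rfl))
  have e2 : ‖∑ k ∈ range L, (a (k + 1) - a k) * ∑ i ∈ range (k + 1), c i‖ ≤ L * (A1 * B) := by
    refine (norm_sum_le _ _).trans ?_
    calc ∑ k ∈ range L, ‖(a (k + 1) - a k) * ∑ i ∈ range (k + 1), c i‖ ≤ ∑ k ∈ range L, A1 * B := by
          refine sum_le_sum fun k hk => ?_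
          have hk' := mem_range.1 hk
          rw [norm_mul]
          exact mul_le_mul (h1 k hk') (hB (k + 1) hk') (norm_nonneg _) ((norm_nonneg _).trans (h1 k hk'))
      _ = L * (A1 * B) := by rw [sum_const, card_range, nsmul_eq_mul]
  calc ‖a L * ∑ k ∈ range L, c k‖ + ‖∑ k ∈ range L, (a (k + 1) - a k) * ∑ i ∈ range (k + 1), c i‖ ≤
      A0 * B + L * (A1 * B) := add_le_add e1 e2
    _ = _ := by ring

/-- the normalising factor of the phase -/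
noncomputable def kp (J : ℕ) (m : ℝ) : ℝ := max 1 (Real.log (1 + J / m))

lemma kp_one (J : ℕ) (m : ℝ) : 1 ≤ kp J m := le_max_left _ _

/-- the oscillating factor -/
noncomputable def osc (Y m : ℝ) (h : ℝ) : ℂ := Complex.exp (I * ((Y * Real.log (Real.log (1 + h / m)) : ℝ) : ℂ))

lemma norm_osc (Y m h : ℝ) : ‖osc Y m h‖ = 1 := by
  unfold osc
  rw [mul_comm]
  exact Complex.norm_exp_ofReal_mul_I _

/-- the exponential sum over a block -/
lemma block (hPH : S_PH) : ∃ η C : ℝ, 0 < η ∧ η ≤ 1 / 4 ∧ 1 ≤ C ∧ ∀ (J u L : ℕ) (m Y : ℝ), 1 ≤ J → J ≤ u →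
    L ≤ J → u + L ≤ 3 * J → 0 < m → 2 * Real.pi * kp J m ≤ Y → Y ≤ 2 * Real.pi * kp J m * (J : ℝ) ^ 3 →
    ‖∑ k ∈ range L, osc Y m (u + k)‖ ≤ C * ((J : ℝ) ^ (1 - η) + J * (2 * Real.pi * kp J m) / Y) := by
  obtain ⟨c0, C0, hc0, hC0, hph⟩ := hPH
  obtain ⟨η, hη0, hη1, C, hC, hv⟩ := Pool.Agent.H221R2.FB.vdc_gen 3 c0 C0 hc0
  refine ⟨min η (1 / 4), 1 + C, lt_min hη0 (by norm_num), min_le_right _ _, by linarith, ?_⟩
  intro J u L m Y hJ hJu hLJ huL hm hY1 hY2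
  have hpi := Real.pi_pos
  have hk := kp_one J m
  have hk0 : 0 < 2 * Real.pi * kp J m := by positivity
  obtain ⟨φ, hφ0, hφ1, hφ2⟩ := hph J m hJ hm
  have hξ : 0 < Y / (2 * Real.pi * kp J m) := div_pos (by linarith) hk0
  have h := hv J L u (Y / (2 * Real.pi * kp J m)) φ hJ (by exact_mod_cast hJu) hLJ (by exact_mod_cast huL)
    (fun a ha => hφ1 a ha) (fun a ha1 ha2 => hφ2 a ha1 ha2)
    (by rw [abs_of_pos hξ, le_div_iff₀ hk0]; linarith)
    (by rw [abs_of_pos hξ, div_le_iff₀ hk0]; linarith)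
  have e1 : ∀ k ∈ range L, e (Y / (2 * Real.pi * kp J m) * φ 0 ((u : ℝ) + k)) = osc Y m (u + k) := by
    intro k _
    rw [hφ0]
    unfold e osc
    have e2 : 2 * Real.pi * (Y / (2 * Real.pi * kp J m) *
        (max 1 (Real.log (1 + J / m)) * Real.log (Real.log (1 + ((u : ℝ) + k) / m)))) =
        Y * Real.log (Real.log (1 + ((u : ℝ) + k) / m)) := by
      unfold kp
      have : 0 < max 1 (Real.log (1 + J / m)) := lt_of_lt_of_le one_pos (le_max_left _ _)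
      field_simp
    rw [e2, mul_comm]
  rw [sum_congr rfl e1] at h
  rw [abs_of_pos hξ] at h
  have hJ1 : (1 : ℝ) ≤ J := by exact_mod_cast hJ
  have e3 : (J : ℝ) / (Y / (2 * Real.pi * kp J m)) = J * (2 * Real.pi * kp J m) / Y := by
    rw [div_div_eq_mul_div]
  rw [e3] at h
  have e4 : (J : ℝ) ^ (1 - η) ≤ (J : ℝ) ^ (1 - min η (1 / 4)) :=
    Real.rpow_le_rpow_of_exponent_le hJ1 (by linarith [min_le_left η (1 / 4)])
  have hYp : 0 < Y := by linarith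
  have e5 : 0 ≤ (J : ℝ) * (2 * Real.pi * kp J m) / Y := by positivity
  have e6 : 0 ≤ (J : ℝ) ^ (1 - min η (1 / 4)) := by positivity
  calc ‖∑ k ∈ range L, osc Y m (u + k)‖ ≤ C * ((J : ℝ) ^ (1 - η) + J * (2 * Real.pi * kp J m) / Y) := h
    _ ≤ C * ((J : ℝ) ^ (1 - min η (1 / 4)) + J * (2 * Real.pi * kp J m) / Y) := by gcongr
    _ ≤ (1 + C) * ((J : ℝ) ^ (1 - min η (1 / 4)) + J * (2 * Real.pi * kp J m) / Y) := by nlinarith

/-! ### the amplitude -/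

/-- the exponent of the amplitude -/
noncomputable def ga (T σ τ y m h : ℝ) : ℂ :=
  -((1 / 2 + σ + I * τ) * ((Real.log m + Real.log (m + h) : ℝ) : ℂ)) -
    (4 + σ) * ((Real.log (Real.log (1 + h / m)) : ℝ) : ℂ) -
    (4 + σ + I * y) * Complex.log (1 + I * (((T * Real.log (1 + h / m))⁻¹ : ℝ) : ℂ))

/-- the derivative of the exponent -/
noncomputable def ga' (T σ τ y m h : ℝ) : ℂ :=
  -((1 / 2 + σ + I * τ) * (((m + h)⁻¹ : ℝ) : ℂ)) -
    (4 + σ) * ((((m + h) * Real.log (1 + h / m))⁻¹ : ℝ) : ℂ) -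
    (4 + σ + I * y) * ((I * ((-(T * (m + h) * Real.log (1 + h / m) ^ 2)⁻¹ : ℝ) : ℂ)) /
      (1 + I * (((T * Real.log (1 + h / m))⁻¹ : ℝ) : ℂ)))

lemma r2_re (x : ℝ) : (1 + I * (x : ℂ)).re = 1 := by simp
lemma r2_im (x : ℝ) : (1 + I * (x : ℂ)).im = x := by simp

lemma r2_norm (x : ℝ) : 1 ≤ ‖1 + I * (x : ℂ)‖ := by
  have h := Complex.abs_re_le_norm (1 + I * (x : ℂ))
  rw [r2_re, abs_one] at h
  exact h

lemma r2_arg {x : ℝ} (hx : 0 ≤ x) : 0 ≤ Complex.arg (1 + I * (x : ℂ)) := by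
  rw [Complex.arg_nonneg_iff, r2_im]
  exact hx

lemma ga_deriv {T σ τ y m h : ℝ} (hT : 0 < T) (hm : 0 < m) (hh : 0 < h) :
    HasDerivAt (ga T σ τ y m) (ga' T σ τ y m h) h := by
  have hmh : 0 < m + h := by linarith
  have h1 : 1 < 1 + h / m := by
    have : 0 < h / m := by positivity
    linarith
  have hl : 0 < Real.log (1 + h / m) := Real.log_pos h1
  have d1 : HasDerivAt (fun t : ℝ => Real.log m + Real.log (m + t)) (m + h)⁻¹ h := by
    have := (((hasDerivAt_id h).const_add m).log hmh.ne').const_add (Real.log m)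
    simpa [one_div] using this
  have d2 : HasDerivAt (fun t : ℝ => Real.log (1 + t / m)) (m + h)⁻¹ h := by
    have := (((hasDerivAt_id h).div_const m).const_add 1).log (by simpa using (by linarith : 1 + h / m ≠ 0))
    refine this.congr_deriv ?_
    simp only [id]
    field_simp
  have d3 : HasDerivAt (fun t : ℝ => Real.log (Real.log (1 + t / m))) ((m + h) * Real.log (1 + h / m))⁻¹ h := by
    refine (d2.log hl.ne').congr_deriv ?_
    field_simp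
  have d4 : HasDerivAt (fun t : ℝ => (T * Real.log (1 + t / m))⁻¹)
      (-(T * (m + h) * Real.log (1 + h / m) ^ 2)⁻¹) h := by
    refine ((d2.const_mul T).inv (by positivity)).congr_deriv ?_
    field_simp
  have d5 : HasDerivAt (fun t : ℝ => 1 + I * (((T * Real.log (1 + t / m))⁻¹ : ℝ) : ℂ))
      (I * ((-(T * (m + h) * Real.log (1 + h / m) ^ 2)⁻¹ : ℝ) : ℂ)) h :=
    (d4.ofReal_comp.const_mul I).const_add 1
  have d6 := d5.clog_real (Or.inl (by rw [r2_re]; exact one_pos))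
  have d7 := (d1.ofReal_comp.const_mul (-(1 / 2 + (σ : ℂ) + I * τ))).sub
    ((d3.ofReal_comp.const_mul (4 + (σ : ℂ))).add (d6.const_mul (4 + (σ : ℂ) + I * y)))
  refine (d7.congr_of_eventuallyEq (Filter.Eventually.of_forall fun t => ?_)).congr_deriv ?_
  · simp only [ga, Pi.sub_apply, Pi.add_apply]
    ring
  · simp only [ga']
    ring

lemma ga_re {T σ τ y m h : ℝ} (hT : 0 < T) (hm : 0 < m) (hh : 0 < h) (hy : y ≤ 0) (hσ : 0 ≤ σ) (hm1 : 1 ≤ m) :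
    (ga T σ τ y m h).re ≤ -(1 / 2 * (Real.log m + Real.log (m + h))) - (4 + σ) * Real.log (Real.log (1 + h / m)) := by
  have h1 : 1 < 1 + h / m := by
    have : 0 < h / m := by positivity
    linarith
  have hl : 0 < Real.log (1 + h / m) := Real.log_pos h1
  set x : ℝ := (T * Real.log (1 + h / m))⁻¹ with hx
  have hx0 : 0 ≤ x := by positivity
  have e1 : (ga T σ τ y m h).re = -((1 / 2 + σ) * (Real.log m + Real.log (m + h))) -
      (4 + σ) * Real.log (Real.log (1 + h / m)) -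
      ((4 + σ) * Real.log ‖1 + I * (x : ℂ)‖ - y * Complex.arg (1 + I * (x : ℂ))) := by
    unfold ga
    rw [← hx, Complex.sub_re, Complex.sub_re, Complex.neg_re, Complex.re_mul_ofReal, Complex.re_mul_ofReal,
      Complex.mul_re, Complex.log_re, Complex.log_im]
    simp
  rw [e1]
  have h2 : 0 ≤ Real.log ‖1 + I * (x : ℂ)‖ := Real.log_nonneg (r2_norm x)
  have h3 := r2_arg hx0
  have h4 : 0 ≤ Real.log m + Real.log (m + h) := add_nonneg (Real.log_nonneg hm1) (Real.log_nonneg (by linarith))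
  nlinarith [mul_nonneg (by linarith : 0 ≤ 4 + σ) h2, mul_nonneg (neg_nonneg.2 hy) h3, mul_nonneg hσ h4]

lemma ga'_le {T σ τ y m h l0 : ℝ} (hT : 0 < T) (hm : 0 < m) (hh : 0 < h) (hσ : 0 ≤ σ) (hσ1 : σ ≤ 1) (hl0 : 0 < l0)
    (hl : l0 ≤ Real.log (1 + h / m)) :
    ‖ga' T σ τ y m h‖ ≤ h⁻¹ * (2 + |τ| + 5 / l0 + (5 + |y|) / (T * l0 ^ 2)) := by
  have hl' : 0 < Real.log (1 + h / m) := by linarith
  have hmh : 0 < m + h := by linarith
  have hinv : (m + h)⁻¹ ≤ h⁻¹ := inv_anti₀ hh (by linarith)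
  have n1 : ‖(1 / 2 + (σ : ℂ) + I * τ)‖ ≤ 2 + |τ| := by
    have a1 : ‖(1 / 2 + (σ : ℂ))‖ ≤ 2 := by
      have : (1 / 2 + (σ : ℂ)) = ((1 / 2 + σ : ℝ) : ℂ) := by push_cast; ring
      rw [this, Complex.norm_real, Real.norm_eq_abs, abs_of_nonneg (by linarith)]
      linarith
    have a2 : ‖I * (τ : ℂ)‖ = |τ| := by simp
    calc _ ≤ ‖(1 / 2 + (σ : ℂ))‖ + ‖I * (τ : ℂ)‖ := norm_add_le _ _
      _ ≤ _ := by rw [a2]; linarith
  have n2 : ‖(4 + (σ : ℂ))‖ ≤ 5 := by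
    have : (4 + (σ : ℂ)) = ((4 + σ : ℝ) : ℂ) := by push_cast; ring
    rw [this, Complex.norm_real, Real.norm_eq_abs, abs_of_nonneg (by linarith)]
    linarith
  have n3 : ‖(4 + (σ : ℂ) + I * y)‖ ≤ 5 + |y| := by
    have a2 : ‖I * (y : ℂ)‖ = |y| := by simp
    calc _ ≤ ‖(4 + (σ : ℂ))‖ + ‖I * (y : ℂ)‖ := norm_add_le _ _
      _ ≤ _ := by rw [a2]; linarith
  have t1 : ‖-((1 / 2 + (σ : ℂ) + I * τ) * (((m + h)⁻¹ : ℝ) : ℂ))‖ ≤ h⁻¹ * (2 + |τ|) := by
    rw [norm_neg, norm_mul, Complex.norm_real, Real.norm_of_nonneg (by positivity), mul_comm]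
    exact mul_le_mul hinv n1 (norm_nonneg _) (by positivity)
  have t2 : ‖(4 + (σ : ℂ)) * ((((m + h) * Real.log (1 + h / m))⁻¹ : ℝ) : ℂ)‖ ≤ h⁻¹ * (5 / l0) := by
    rw [norm_mul, Complex.norm_real, Real.norm_of_nonneg (by positivity), mul_inv]
    calc ‖(4 + (σ : ℂ))‖ * ((m + h)⁻¹ * (Real.log (1 + h / m))⁻¹) ≤ 5 * (h⁻¹ * l0⁻¹) := by gcongr
      _ = _ := by ring
  have t3 : ‖(4 + (σ : ℂ) + I * y) * ((I * ((-(T * (m + h) * Real.log (1 + h / m) ^ 2)⁻¹ : ℝ) : ℂ)) /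
      (1 + I * (((T * Real.log (1 + h / m))⁻¹ : ℝ) : ℂ)))‖ ≤ h⁻¹ * ((5 + |y|) / (T * l0 ^ 2)) := by
    rw [norm_mul, norm_div, norm_mul, Complex.norm_I, one_mul, Complex.norm_real, Real.norm_eq_abs, abs_neg,
      abs_of_nonneg (by positivity)]
    have a1 : (T * (m + h) * Real.log (1 + h / m) ^ 2)⁻¹ / ‖(1 + I * (((T * Real.log (1 + h / m))⁻¹ : ℝ) : ℂ))‖ ≤
        (T * (m + h) * Real.log (1 + h / m) ^ 2)⁻¹ := div_le_self (by positivity) (r2_norm _)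
    have a2 : (T * (m + h) * Real.log (1 + h / m) ^ 2)⁻¹ ≤ (T * h * l0 ^ 2)⁻¹ := by
      apply inv_anti₀ (by positivity)
      gcongr
      linarith
    calc _ ≤ (5 + |y|) * (T * h * l0 ^ 2)⁻¹ := by
          refine mul_le_mul n3 (a1.trans a2) (by positivity) (by positivity)
      _ = _ := by
          rw [mul_inv, mul_inv]
          field_simp
  unfold ga'
  calc _ ≤ ‖-((1 / 2 + (σ : ℂ) + I * τ) * (((m + h)⁻¹ : ℝ) : ℂ))‖ +
      ‖(4 + (σ : ℂ)) * ((((m + h) * Real.log (1 + h / m))⁻¹ : ℝ) : ℂ)‖ + _ :=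
        (norm_sub_le _ _).trans (add_le_add_left (norm_sub_le _ _) _)
    _ ≤ h⁻¹ * (2 + |τ|) + h⁻¹ * (5 / l0) + h⁻¹ * ((5 + |y|) / (T * l0 ^ 2)) :=
        add_le_add (add_le_add t1 t2) t3
    _ = _ := by ring

/-- the size of the amplitude -/
lemma amp_le {T σ τ y m h l0 J : ℝ} (hT : 0 < T) (hm1 : 1 ≤ m) (hJ : 0 < J) (hJh : J ≤ h) (hy : y ≤ 0) (hσ : 0 ≤ σ)
    (hσ1 : σ ≤ 1) (hl0 : 0 < l0) (hl1 : l0 ≤ 1) (hl : l0 ≤ Real.log (1 + h / m)) :
    ‖Complex.exp (ga T σ τ y m h)‖ ≤ (√(m * J))⁻¹ * (l0 ^ 5)⁻¹ := by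
  have hm : 0 < m := by linarith
  have hh : 0 < h := by linarith
  rw [Complex.norm_exp]
  have h1 := ga_re (T := T) (τ := τ) hT hm hh hy hσ hm1
  have hmh : 0 < m + h := by linarith
  have e1 : Real.exp (-(1 / 2 * (Real.log m + Real.log (m + h))) - (4 + σ) * Real.log (Real.log (1 + h / m))) =
      (√(m * (m + h)))⁻¹ * (Real.log (1 + h / m) ^ (4 + σ))⁻¹ := by
    have hl' : 0 < Real.log (1 + h / m) := by linarith
    rw [sub_eq_add_neg, Real.exp_add, Real.exp_neg, Real.exp_neg, Real.sqrt_eq_rpow,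
      Real.rpow_def_of_pos (by positivity), Real.rpow_def_of_pos hl', Real.log_mul hm.ne' hmh.ne']
    ring_nf
  refine (Real.exp_le_exp.2 h1).trans ?_
  rw [e1]
  have a1 : (√(m * (m + h)))⁻¹ ≤ (√(m * J))⁻¹ := by
    apply inv_anti₀ (Real.sqrt_pos.2 (by positivity))
    apply Real.sqrt_le_sqrt
    nlinarith
  have a2 : l0 ^ 5 ≤ Real.log (1 + h / m) ^ (4 + σ) := by
    calc l0 ^ 5 = l0 ^ (5 : ℝ) := by norm_cast
      _ ≤ l0 ^ (4 + σ) := Real.rpow_le_rpow_of_exponent_ge hl0 hl1 (by linarith)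
      _ ≤ _ := Real.rpow_le_rpow hl0.le hl (by linarith)
  have a3 : (Real.log (1 + h / m) ^ (4 + σ))⁻¹ ≤ (l0 ^ 5)⁻¹ := inv_anti₀ (by positivity) a2
  exact mul_le_mul a1 a3 (inv_nonneg.2 ((by positivity : 0 ≤ l0 ^ 5).trans a2)) (by positivity)

end Pool.Agent.K1H51.DL
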