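import Pool.Agent.K1H51.DL.Core2
import Pool.Agent.K1H51.DL.Core1b

set_option autoImplicit false

/-!
Blocks with amplitudes, dyadic decomposition.
-/

namespace Pool.Agent.K1H51.DL

open Finset
open Complex (I)
open Pool.Agent.Y969.GP (ht lam PS)

/-- the term in terms of the amplitude -/
lemma term_eq {T σ τ y : ℝ} (hT : 0 < T) {p : ℕ × ℕ} (h1 : 1 ≤ p.1) (h : p.1 < p.2) :
    Complex.exp (-((1 / 2 + σ + I * τ) * ((Real.log (ht p) : ℝ) : ℂ))) *
        Complex.exp (-((4 + σ + I * y) * Complex.log (((T⁻¹ : ℝ) : ℂ) - I * ((lam p : ℝ) : ℂ)))) =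
      Complex.exp ((4 + σ + I * y) * (I * (Real.pi / 2 : ℝ))) *
        (Complex.exp (ga T σ τ y p.1 ((p.2 - p.1 : ℕ) : ℝ)) * osc (-y) p.1 ((p.2 - p.1 : ℕ) : ℝ)) := by
  have a1 : (0 : ℝ) < p.1 := by exact_mod_cast h1
  have a2 : (p.1 : ℝ) < p.2 := by exact_mod_cast h
  have a3 : (0 : ℝ) < p.2 := by linarith
  have e0 : ((p.2 - p.1 : ℕ) : ℝ) = (p.2 : ℝ) - p.1 := by rw [Nat.cast_sub h.le]
  have e1 : (p.1 : ℝ) + ((p.2 : ℝ) - p.1) = p.2 := by ring
  have e2 : Real.log (1 + ((p.2 : ℝ) - p.1) / p.1) = lam p := by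
    unfold lam
    rw [show 1 + ((p.2 : ℝ) - p.1) / p.1 = p.2 / p.1 by field_simp; ring, Real.log_div a3.ne' a1.ne']
  have hl : 0 < lam p := by
    unfold lam
    have := Real.log_lt_log a1 a2
    linarith
  set l := lam p with hldef
  have e3 : Complex.log (((T⁻¹ : ℝ) : ℂ) - I * ((l : ℝ) : ℂ)) =
      ((Real.log l : ℝ) : ℂ) - I * (Real.pi / 2 : ℝ) + Complex.log (1 + I * (((T * l)⁻¹ : ℝ) : ℂ)) := by
    have f1 : ((T⁻¹ : ℝ) : ℂ) - I * ((l : ℝ) : ℂ) = (-(I * (l : ℂ))) * (1 + I * (((T * l)⁻¹ : ℝ) : ℂ)) := by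
      have hlc : (l : ℂ) ≠ 0 := by exact_mod_cast hl.ne'
      have hTc : (T : ℂ) ≠ 0 := by exact_mod_cast hT.ne'
      push_cast
      field_simp
      ring_nf
      rw [Complex.I_sq]
      ring
    have f2 : -(I * (l : ℂ)) = (l : ℂ) * (-I) := by ring
    have f3 : Complex.log (-(I * (l : ℂ))) = ((Real.log l : ℝ) : ℂ) - I * (Real.pi / 2 : ℝ) := by
      rw [f2, Complex.log_ofReal_mul hl (by simp), Complex.log_neg_I]
      push_cast
      ring
    have f4 : Complex.arg (-(I * (l : ℂ))) = -(Real.pi / 2) := by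
      rw [f2, Complex.arg_real_mul _ hl, Complex.arg_neg_I]
    have hx0 : 0 ≤ (T * l)⁻¹ := by positivity
    have f5 := r2_arg hx0
    have f6 := Complex.arg_le_pi (1 + I * (((T * l)⁻¹ : ℝ) : ℂ))
    have hpi := Real.pi_pos
    rw [f1, Complex.log_mul, f3]
    · rw [neg_ne_zero]
      exact mul_ne_zero Complex.I_ne_zero (by exact_mod_cast hl.ne')
    · intro h0
      have := r2_norm (T * l)⁻¹
      rw [h0, norm_zero] at this
      linarith
    · rw [f4]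
      constructor <;> linarith
  have e4 : Real.log (ht p) = Real.log p.1 + Real.log p.2 := by
    unfold ht
    rw [Real.log_mul a1.ne' a3.ne']
  rw [e3]
  unfold ga osc
  rw [e0, e1, e2, e4, ← Complex.exp_add, ← Complex.exp_add, ← Complex.exp_add]
  congr 1
  push_cast
  ring_nf
  try rw [Complex.I_sq]
  try ring

/-- the constant of the variation -/
noncomputable def Bt (T τ y l0 : ℝ) : ℝ := 2 + |τ| + 5 / l0 + (5 + |y|) / (T * l0 ^ 2)

/-- a block with its amplitude -/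
lemma blockA {T σ τ y l0 B : ℝ} (hT : 0 < T) (hσ : 0 ≤ σ) (hσ1 : σ ≤ 1) (hy : y ≤ 0) (hl0 : 0 < l0) (hl1 : l0 ≤ 1)
    {J u L m : ℕ} (hm : 1 ≤ m) (hJ : 1 ≤ J) (hJu : J ≤ u) (hL : L ≤ J) (hlu : l0 ≤ Real.log (1 + u / m))
    (hB : ∀ l ≤ L, ‖∑ k ∈ range l, osc (-y) m (u + k)‖ ≤ B) :
    ‖∑ k ∈ range L, Complex.exp (ga T σ τ y m (u + k)) * osc (-y) m (u + k)‖ ≤
      (√((m : ℝ) * J))⁻¹ * (l0 ^ 5)⁻¹ * (1 + Bt T τ y l0) * B := by
  have hm1 : (1 : ℝ) ≤ m := by exact_mod_cast hm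
  have hm0 : (0 : ℝ) < m := by linarith
  have hJ1 : (1 : ℝ) ≤ J := by exact_mod_cast hJ
  have hJu' : (J : ℝ) ≤ u := by exact_mod_cast hJu
  have hB0 : 0 ≤ B := (norm_nonneg _).trans (hB 0 (Nat.zero_le _))
  set A0 : ℝ := (√((m : ℝ) * J))⁻¹ * (l0 ^ 5)⁻¹ with hA0
  have hA00 : 0 ≤ A0 := by positivity
  have hBt : 0 ≤ Bt T τ y l0 := by unfold Bt; positivity
  have hl : ∀ h : ℝ, (u : ℝ) ≤ h → l0 ≤ Real.log (1 + h / m) := by
    intro h hh
    refine hlu.trans (Real.log_le_log (by positivity) ?_)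
    have : (u : ℝ) / m ≤ h / m := by gcongr
    linarith
  have hamp : ∀ h : ℝ, (u : ℝ) ≤ h → ‖Complex.exp (ga T σ τ y m h)‖ ≤ A0 := fun h hh =>
    amp_le hT hm1 (by linarith) (by linarith) hy hσ hσ1 hl0 hl1 (hl h hh)
  have hdiff : ∀ k < L, ‖Complex.exp (ga T σ τ y m (u + ((k + 1 : ℕ) : ℝ))) -
      Complex.exp (ga T σ τ y m (u + (k : ℝ)))‖ ≤ A0 * ((J : ℝ)⁻¹ * Bt T τ y l0) := by
    intro k _
    have hd : ∀ x ∈ Set.Icc ((u : ℝ) + k) (u + ((k + 1 : ℕ) : ℝ)),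
        HasDerivWithinAt (fun h : ℝ => Complex.exp (ga T σ τ y m h))
          (Complex.exp (ga T σ τ y m x) * ga' T σ τ y m x) (Set.Icc ((u : ℝ) + k) (u + ((k + 1 : ℕ) : ℝ))) x := by
      intro x hx
      have hx0 : 0 < x := by
        have := hx.1
        have hk : (0 : ℝ) ≤ k := Nat.cast_nonneg k
        linarith
      exact ((ga_deriv hT hm0 hx0).cexp).hasDerivWithinAt
    have hb : ∀ x ∈ Set.Ico ((u : ℝ) + k) (u + ((k + 1 : ℕ) : ℝ)),
        ‖Complex.exp (ga T σ τ y m x) * ga' T σ τ y m x‖ ≤ A0 * ((J : ℝ)⁻¹ * Bt T τ y l0) := by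
      intro x hx
      have hk : (0 : ℝ) ≤ k := Nat.cast_nonneg k
      have hux : (u : ℝ) ≤ x := by linarith [hx.1]
      have hx0 : 0 < x := by linarith
      rw [norm_mul]
      refine mul_le_mul (hamp x hux) ?_ (norm_nonneg _) hA00
      refine (ga'_le hT hm0 hx0 hσ hσ1 hl0 (hl x hux)).trans ?_
      unfold Bt at hBt ⊢
      apply mul_le_mul_of_nonneg_right _ hBt
      exact inv_anti₀ (by linarith) (by linarith)
    have h := norm_image_sub_le_of_norm_deriv_le_segment' hd hb (u + ((k + 1 : ℕ) : ℝ)) ⟨by push_cast; linarith, le_rfl⟩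
    refine h.trans (le_of_eq ?_)
    push_cast
    ring
  have h := abel (a := fun k : ℕ => Complex.exp (ga T σ τ y m (u + (k : ℝ)))) (c := fun k : ℕ => osc (-y) m (u + (k : ℝ)))
    (L := L) hB (fun k _ => hamp _ (by have hk : (0 : ℝ) ≤ k := Nat.cast_nonneg k; linarith)) hdiff
  refine h.trans ?_
  apply mul_le_mul_of_nonneg_right _ hB0
  have hL' : (L : ℝ) ≤ J := by exact_mod_cast hL
  have : (L : ℝ) * (A0 * ((J : ℝ)⁻¹ * Bt T τ y l0)) ≤ A0 * Bt T τ y l0 := by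
    calc (L : ℝ) * (A0 * ((J : ℝ)⁻¹ * Bt T τ y l0)) ≤ (J : ℝ) * (A0 * ((J : ℝ)⁻¹ * Bt T τ y l0)) := by gcongr
      _ = A0 * Bt T τ y l0 := by
          have : (J : ℝ) ≠ 0 := by linarith
          field_simp
  linarith

/-- filters of intervals by convex conditions are intervals -/
lemma interval_filter (P : ℕ → Prop) [DecidablePred P] (hP : ∀ x y z, P x → P z → x ≤ y → y ≤ z → P y) (a b : ℕ)
    (hab : a ≤ b) : ∃ u L : ℕ, a ≤ u ∧ u + L ≤ b ∧ (Ico a b).filter P = Ico u (u + L) := by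
  rcases ((Ico a b).filter P).eq_empty_or_nonempty with h | h
  · exact ⟨a, 0, le_rfl, by omega, by rw [h]; simp⟩
  · set u := ((Ico a b).filter P).min' h with hu
    set v := ((Ico a b).filter P).max' h with hv
    have hum := min'_mem _ h
    have hvm := max'_mem _ h
    rw [← hu, mem_filter, mem_Ico] at hum
    rw [← hv, mem_filter, mem_Ico] at hvm
    have huv : u ≤ v := min'_le _ _ (max'_mem _ h)
    refine ⟨u, v + 1 - u, hum.1.1, by omega, ?_⟩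
    ext x
    rw [mem_filter, mem_Ico, mem_Ico]
    constructor
    · rintro ⟨hx, hPx⟩
      have h1 : u ≤ x := min'_le _ _ (by rw [mem_filter, mem_Ico]; exact ⟨hx, hPx⟩)
      have h2 : x ≤ v := le_max' _ _ (by rw [mem_filter, mem_Ico]; exact ⟨hx, hPx⟩)
      omega
    · rintro ⟨h1, h2⟩
      refine ⟨by omega, hP u x v hum.2 hvm.2 h1 (by omega)⟩

/-- dyadic decomposition -/
lemma dyadic (f : ℕ → ℂ) (P : ℕ → Prop) [DecidablePred P] (X : ℕ) :
    ‖∑ h ∈ (Icc 1 X).filter P, f h‖ ≤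
      ∑ j ∈ range (Nat.log 2 X + 1), ‖∑ h ∈ (Ico (2 ^ j) (2 ^ (j + 1))).filter (fun h => P h ∧ h ≤ X), f h‖ := by
  have h1 : (Icc 1 X).filter P =
      (range (Nat.log 2 X + 1)).biUnion (fun j => (Ico (2 ^ j) (2 ^ (j + 1))).filter (fun h => P h ∧ h ≤ X)) := by
    ext h
    simp only [mem_filter, mem_Icc, mem_biUnion, mem_range, mem_Ico]
    constructor
    · rintro ⟨⟨h1, h2⟩, h3⟩
      refine ⟨Nat.log 2 h, ?_, ⟨Nat.pow_log_le_self 2 (by omega), Nat.lt_pow_succ_log_self (by norm_num) h⟩, h3, h2⟩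
      have := Nat.log_mono_right (b := 2) h2
      omega
    · rintro ⟨j, hj, ⟨h1, h2⟩, h3, h4⟩
      exact ⟨⟨(Nat.one_le_two_pow).trans h1, h4⟩, h3⟩
  rw [h1, sum_biUnion]
  · exact norm_sum_le _ _
  · intro i _ j _ hij
    rw [Function.onFun, disjoint_left]
    intro h hi hj
    simp only [mem_filter, mem_Ico] at hi hj
    apply hij
    obtain ⟨⟨a1, a2⟩, -⟩ := hi
    obtain ⟨⟨b1, b2⟩, -⟩ := hj
    have c1 : i < j + 1 := (Nat.pow_lt_pow_iff_right (by norm_num : 1 < 2)).1 (lt_of_le_of_lt a1 b2)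
    have c2 : j < i + 1 := (Nat.pow_lt_pow_iff_right (by norm_num : 1 < 2)).1 (lt_of_le_of_lt b1 a2)
    omega

end Pool.Agent.K1H51.DL
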