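import Pool.Agent.K1H51.DL.Core3

set_option autoImplicit false

/-!
The main sum over the pairs.
-/

namespace Pool.Agent.K1H51.DL

open Finset
open Complex (I)
open Pool.Agent.Y969.GP (ht lam PS)

/-- the oscillating term -/
noncomputable def tm (T σ τ y : ℝ) (m h : ℕ) : ℂ :=
  Complex.exp (ga T σ τ y m (h : ℝ)) * osc (-y) m (h : ℝ)

/-- the condition on `h` -/
def Ph (l0 : ℝ) (X m h : ℕ) : Prop := m * (m + h) ≤ X ∧ l0 ≤ Real.log (1 + (h : ℝ) / m)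

noncomputable instance (l0 : ℝ) (X m : ℕ) : DecidablePred (Ph l0 X m) := fun _ => by
  unfold Ph; infer_instance

lemma main_mh (T σ τ y l0 : ℝ) (X : ℕ) :
    ∑ p ∈ (PS X).filter (fun p => p.1 < p.2 ∧ l0 ≤ lam p), tm T σ τ y p.1 (p.2 - p.1) =
      ∑ m ∈ Icc 1 X, ∑ h ∈ (Icc 1 X).filter (Ph l0 X m), tm T σ τ y m h := by
  rw [sum_sigma' (Icc 1 X) (fun m => (Icc 1 X).filter (Ph l0 X m)) (fun m h => tm T σ τ y m h)]
  refine sum_nbij' (fun p => ⟨p.1, p.2 - p.1⟩) (fun q => (q.1, q.1 + q.2)) ?_ ?_ ?_ ?_ ?_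
  · intro p hp
    obtain ⟨a, b, c⟩ := mem_filter.1 hp
    obtain ⟨h1, h2, h3⟩ := mem_PS.1 a
    have h4 : p.1 ≤ X := (Nat.le_mul_of_pos_right _ h2).trans h3
    have h5 : p.2 ≤ X := (Nat.le_mul_of_pos_left _ h1).trans h3
    rw [mem_sigma, mem_filter, mem_Icc, mem_Icc]
    refine ⟨⟨h1, h4⟩, ⟨?_, ?_⟩, ?_, ?_⟩
    · simp only; omega
    · simp only; omega
    · simp only
      rw [show p.1 + (p.2 - p.1) = p.2 by omega]
      exact h3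
    · simp only
      have a1 : (0 : ℝ) < p.1 := by exact_mod_cast h1
      have a3 : (0 : ℝ) < p.2 := by exact_mod_cast h2
      rw [Nat.cast_sub b.le, show 1 + ((p.2 : ℝ) - p.1) / p.1 = p.2 / p.1 by field_simp; ring,
        Real.log_div a3.ne' a1.ne']
      exact c
  · intro q hq
    rw [mem_sigma, mem_filter, mem_Icc, mem_Icc] at hq
    obtain ⟨⟨h1, h2⟩, ⟨h3, h4⟩, h5, h6⟩ := hq
    rw [mem_filter, mem_PS]
    refine ⟨⟨h1, ?_, h5⟩, ?_, ?_⟩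
    · simp only; omega
    · simp only; omega
    · unfold lam
      simp only
      have a1 : (0 : ℝ) < q.1 := by exact_mod_cast h1
      have a3 : (0 : ℝ) < ((q.1 + q.2 : ℕ) : ℝ) := by exact_mod_cast (by omega : 0 < q.1 + q.2)
      rw [← Real.log_div a3.ne' a1.ne']
      have e : (((q.1 + q.2 : ℕ) : ℝ)) / q.1 = 1 + (q.2 : ℝ) / q.1 := by
        push_cast
        field_simp
      rw [e]
      exact h6
  · intro p hp
    obtain ⟨a, b, c⟩ := mem_filter.1 hp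
    ext
    · rfl
    · simp only; omega
  · intro q hq
    simp
  · intro p hp
    rfl

lemma Ph_convex (l0 : ℝ) (X m : ℕ) (x y z : ℕ) (hx : Ph l0 X m x ∧ x ≤ X) (hz : Ph l0 X m z ∧ z ≤ X) (hxy : x ≤ y)
    (hyz : y ≤ z) : Ph l0 X m y ∧ y ≤ X := by
  refine ⟨⟨?_, ?_⟩, hyz.trans hz.2⟩
  · exact le_trans (Nat.mul_le_mul_left m (by omega)) hz.1.1
  · refine hx.1.2.trans (Real.log_le_log (by positivity) ?_)
    have : (x : ℝ) ≤ y := by exact_mod_cast hxy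
    gcongr

/-- elementary -/
lemma mJ_le {m J X η : ℝ} (hm : 1 ≤ m) (hJ : 1 ≤ J) (hmJ : m * J ≤ X) (hm2 : m * m ≤ X) (hη : 0 ≤ η) (hη1 : η ≤ 1 / 2) :
    (√(m * J))⁻¹ * J ^ (1 - η) ≤ X ^ ((1 - η) / 2) * (1 / m) := by
  have hm0 : 0 < m := by linarith
  have hJ0 : 0 < J := by linarith
  have hmJ0 : 0 < m * J := by positivity
  have hX0 : 0 < X := by linarith
  have e1 : (√(m * J))⁻¹ * J ^ (1 - η) = (m * J) ^ (1 / 2 - η) * m ^ η * (1 / m) := by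
    rw [Real.sqrt_eq_rpow, ← Real.rpow_neg hmJ0.le, Real.mul_rpow hm0.le hJ0.le, Real.mul_rpow hm0.le hJ0.le,
      one_div m, ← Real.rpow_neg_one m]
    have e2 : m ^ (1 / 2 - η) * J ^ (1 / 2 - η) * m ^ η * m ^ (-1 : ℝ) =
        (m ^ (1 / 2 - η) * m ^ η * m ^ (-1 : ℝ)) * J ^ (1 / 2 - η) := by ring
    rw [e2, ← Real.rpow_add hm0, ← Real.rpow_add hm0, mul_assoc, ← Real.rpow_add hJ0]
    ring_nf
  rw [e1]
  have h1 : (m * J) ^ (1 / 2 - η) ≤ X ^ (1 / 2 - η) := Real.rpow_le_rpow hmJ0.le hmJ (by linarith)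
  have h2 : m ^ η ≤ X ^ (η / 2) := by
    have h3 : m ^ η = (m * m) ^ (η / 2) := by
      rw [Real.mul_rpow hm0.le hm0.le, ← Real.rpow_add hm0]
      ring_nf
    rw [h3]
    exact Real.rpow_le_rpow (by positivity) hm2 (by positivity)
  have h4 : X ^ ((1 - η) / 2) = X ^ (1 / 2 - η) * X ^ (η / 2) := by
    rw [← Real.rpow_add hX0]
    ring_nf
  rw [h4]
  gcongr

lemma blk_le {T σ τ y l0 η D : ℝ} {X : ℕ} (hT : 0 < T) (hσ : 0 ≤ σ) (hσ1 : σ ≤ 1) (hy : y ≤ 0) (hl0 : 0 < l0)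
    (hl1 : l0 ≤ 1) (hη : 0 ≤ η) (hη1 : η ≤ 1 / 2) (hD0 : 0 ≤ D)
    (hD : ∀ m J u l : ℕ, 1 ≤ m → 1 ≤ J → J ≤ u → l ≤ J → J ≤ X → u + l ≤ 3 * J →
      ‖∑ k ∈ range l, osc (-y) m (u + k)‖ ≤ D * (J : ℝ) ^ (1 - η)) (m j : ℕ) (hm : 1 ≤ m) :
    ‖∑ h ∈ (Ico (2 ^ j) (2 ^ (j + 1))).filter (fun h => Ph l0 X m h ∧ h ≤ X), tm T σ τ y m h‖ ≤
      (l0 ^ 5)⁻¹ * (1 + Bt T τ y l0) * D * ((X : ℝ) ^ ((1 - η) / 2)) * (1 / (m : ℝ)) := by
  have hBt : 0 ≤ Bt T τ y l0 := by unfold Bt; positivity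
  obtain ⟨u, L, h1, h2, h3⟩ := interval_filter (fun h => Ph l0 X m h ∧ h ≤ X) (Ph_convex l0 X m) (2 ^ j) (2 ^ (j + 1))
    (Nat.pow_le_pow_right (by norm_num) (by omega))
  rw [h3, sum_Ico_eq_sum_range, Nat.add_sub_cancel_left]
  rcases Nat.eq_zero_or_pos L with hL | hL
  · subst hL
    simp only [range_zero, sum_empty, norm_zero]
    positivity
  · have hu : u ∈ (Ico (2 ^ j) (2 ^ (j + 1))).filter (fun h => Ph l0 X m h ∧ h ≤ X) := by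
      rw [h3, mem_Ico]; omega
    rw [mem_filter] at hu
    obtain ⟨-, ⟨hu1, hu2⟩, hu3⟩ := hu
    have hJ : 1 ≤ 2 ^ j := Nat.one_le_two_pow
    have h2' : u + L ≤ 2 * 2 ^ j := by rw [pow_succ] at h2; omega
    have hLJ : L ≤ 2 ^ j := by omega
    have h := blockA (J := 2 ^ j) (L := L) (τ := τ) (B := D * ((2 ^ j : ℕ) : ℝ) ^ (1 - η)) hT hσ hσ1 hy hl0 hl1 hm hJ h1
      hLJ hu2 (fun l hl => hD m (2 ^ j) u l hm hJ h1 (by omega) (by omega) (by omega))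
    have e1 : ∑ k ∈ range L, tm T σ τ y m (u + k) =
        ∑ k ∈ range L, Complex.exp (ga T σ τ y m ((u : ℝ) + (k : ℝ))) * osc (-y) m ((u : ℝ) + (k : ℝ)) := by
      refine sum_congr rfl fun k _ => ?_
      unfold tm
      push_cast
      rfl
    rw [e1]
    refine h.trans ?_
    have hm1 : (1 : ℝ) ≤ m := by exact_mod_cast hm
    have hJ1 : (1 : ℝ) ≤ ((2 ^ j : ℕ) : ℝ) := by exact_mod_cast hJ
    have c1 : (m : ℝ) * ((2 ^ j : ℕ) : ℝ) ≤ X := by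
      have : m * 2 ^ j ≤ X := le_trans (Nat.mul_le_mul_left m (by omega : 2 ^ j ≤ m + u)) hu1
      exact_mod_cast this
    have c2 : (m : ℝ) * m ≤ X := by
      have : m * m ≤ X := le_trans (Nat.mul_le_mul_left m (by omega : m ≤ m + u)) hu1
      exact_mod_cast this
    have h5 := mJ_le hm1 hJ1 c1 c2 hη hη1
    have h6 : 0 ≤ (l0 ^ 5)⁻¹ * (1 + Bt T τ y l0) * D := by positivity
    calc (√((m : ℝ) * ((2 ^ j : ℕ) : ℝ)))⁻¹ * (l0 ^ 5)⁻¹ * (1 + Bt T τ y l0) * (D * ((2 ^ j : ℕ) : ℝ) ^ (1 - η)) =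
        (l0 ^ 5)⁻¹ * (1 + Bt T τ y l0) * D * ((√((m : ℝ) * ((2 ^ j : ℕ) : ℝ)))⁻¹ * ((2 ^ j : ℕ) : ℝ) ^ (1 - η)) := by ring
      _ ≤ (l0 ^ 5)⁻¹ * (1 + Bt T τ y l0) * D * ((X : ℝ) ^ ((1 - η) / 2) * (1 / (m : ℝ))) := by gcongr
      _ = _ := by ring

/-- the main sum -/
lemma main_le {T σ τ y l0 η D : ℝ} {X : ℕ} (hT : 0 < T) (hσ : 0 ≤ σ) (hσ1 : σ ≤ 1) (hy : y ≤ 0) (hl0 : 0 < l0)
    (hl1 : l0 ≤ 1) (hη : 0 ≤ η) (hη1 : η ≤ 1 / 2) (hD0 : 0 ≤ D)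
    (hD : ∀ m J u l : ℕ, 1 ≤ m → 1 ≤ J → J ≤ u → l ≤ J → J ≤ X → u + l ≤ 3 * J →
      ‖∑ k ∈ range l, osc (-y) m (u + k)‖ ≤ D * (J : ℝ) ^ (1 - η)) :
    ‖∑ p ∈ (PS X).filter (fun p => p.1 < p.2 ∧ l0 ≤ lam p), tm T σ τ y p.1 (p.2 - p.1)‖ ≤
      (l0 ^ 5)⁻¹ * (1 + Bt T τ y l0) * D * ((X : ℝ) ^ ((1 - η) / 2)) * (((Nat.log 2 X : ℝ) + 1) * (1 + Real.log X)) := by
  have hBt : 0 ≤ Bt T τ y l0 := by unfold Bt; positivity
  rw [main_mh]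
  set A : ℝ := (l0 ^ 5)⁻¹ * (1 + Bt T τ y l0) * D * ((X : ℝ) ^ ((1 - η) / 2)) with hA
  have hA0 : 0 ≤ A := by positivity
  refine (norm_sum_le _ _).trans ?_
  have h1 : ∀ m ∈ Icc 1 X, ‖∑ h ∈ (Icc 1 X).filter (Ph l0 X m), tm T σ τ y m h‖ ≤
      ((Nat.log 2 X : ℝ) + 1) * (A * (1 / (m : ℝ))) := by
    intro m hm
    refine (dyadic (fun h => tm T σ τ y m h) (Ph l0 X m) X).trans ?_
    calc _ ≤ ∑ j ∈ range (Nat.log 2 X + 1), A * (1 / (m : ℝ)) := by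
          refine sum_le_sum fun j _ => ?_
          exact blk_le hT hσ hσ1 hy hl0 hl1 hη hη1 hD0 hD m j (mem_Icc.1 hm).1
      _ = _ := by rw [sum_const, card_range, nsmul_eq_mul]; push_cast; ring
  calc ∑ m ∈ Icc 1 X, ‖∑ h ∈ (Icc 1 X).filter (Ph l0 X m), tm T σ τ y m h‖ ≤
      ∑ m ∈ Icc 1 X, ((Nat.log 2 X : ℝ) + 1) * (A * (1 / (m : ℝ))) := sum_le_sum h1
    _ = A * (((Nat.log 2 X : ℝ) + 1) * ∑ m ∈ Icc 1 X, 1 / (m : ℝ)) := by
        rw [mul_sum, mul_sum]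
        refine sum_congr rfl fun m _ => by ring
    _ ≤ _ := by
        have := harmI X
        gcongr

/-- bounds for the partial sums -/
lemma part_le (hPH : S_PH) : ∃ η C : ℝ, 0 < η ∧ η ≤ 1 / 4 ∧ 1 ≤ C ∧ ∀ (T Y : ℝ) (X m J u l : ℕ), 1 ≤ T →
    Y ≤ T ^ (21 / 20 : ℝ) → (X : ℝ) ^ (1 / 4 : ℝ) * (2 * Real.pi * (1 + Real.log (1 + X))) ≤ Y →
    1 ≤ m → 1 ≤ J → J ≤ u → l ≤ J → J ≤ X → u + l ≤ 3 * J →
    ‖∑ k ∈ range l, osc Y m (u + k)‖ ≤ C * T ^ (35 / 100 * η) * (J : ℝ) ^ (1 - η) := by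
  obtain ⟨η, C, hη0, hη1, hC, hb⟩ := block hPH
  refine ⟨η, 2 * C, hη0, hη1, by linarith, ?_⟩
  intro T Y X m J u l hT hY hXY hm hJ hJu hlJ hJX hul
  have hpi := Real.pi_gt_three
  have hm1 : (1 : ℝ) ≤ m := by exact_mod_cast hm
  have hJ1 : (1 : ℝ) ≤ J := by exact_mod_cast hJ
  have hJX' : (J : ℝ) ≤ X := by exact_mod_cast hJX
  have hX1 : (1 : ℝ) ≤ X := hJ1.trans hJX'
  have hkp : kp J m ≤ 1 + Real.log (1 + X) := by
    unfold kp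
    have h0 : 0 ≤ Real.log (1 + X) := Real.log_nonneg (by linarith)
    refine max_le (by linarith) ?_
    have h1 : Real.log (1 + (J : ℝ) / m) ≤ Real.log (1 + X) := by
      apply Real.log_le_log (by positivity)
      have : (J : ℝ) / m ≤ J := div_le_self (by linarith) hm1
      linarith
    linarith
  have hkp1 := kp_one J m
  have hX4 : 1 ≤ (X : ℝ) ^ (1 / 4 : ℝ) := Real.one_le_rpow hX1 (by norm_num)
  have hk2 : (X : ℝ) ^ (1 / 4 : ℝ) * (2 * Real.pi * kp J m) ≤ Y := by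
    refine le_trans ?_ hXY
    gcongr
  have hk3 : 2 * Real.pi * kp J m ≤ Y := by
    refine le_trans ?_ hk2
    have : 0 ≤ 2 * Real.pi * kp J m := by positivity
    nlinarith
  have hY0 : 0 < Y := by
    have : 0 < 2 * Real.pi * kp J m := by positivity
    linarith
  have hTη : 1 ≤ T ^ (35 / 100 * η) := Real.one_le_rpow hT (by positivity)
  have hJη : 0 < (J : ℝ) ^ (1 - η) := Real.rpow_pos_of_pos (by linarith) _
  rcases le_or_gt Y (2 * Real.pi * kp J m * (J : ℝ) ^ 3) with h | h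
  · have h1 := hb J u l m Y hJ hJu hlJ hul (by linarith) hk3 h
    have h2 : (J : ℝ) * (2 * Real.pi * kp J m) / Y ≤ (J : ℝ) ^ (1 - η) := by
      rw [div_le_iff₀ hY0]
      have e1 : (J : ℝ) = (J : ℝ) ^ (1 - η) * (J : ℝ) ^ η := by
        rw [← Real.rpow_add (by linarith)]
        simp
      have e2 : (J : ℝ) ^ η ≤ (X : ℝ) ^ (1 / 4 : ℝ) :=
        (Real.rpow_le_rpow_of_exponent_le hJ1 hη1).trans (Real.rpow_le_rpow (by linarith) hJX' (by norm_num))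
      calc (J : ℝ) * (2 * Real.pi * kp J m) = (J : ℝ) ^ (1 - η) * (J : ℝ) ^ η * (2 * Real.pi * kp J m) := by
            rw [← e1]
        _ = (J : ℝ) ^ (1 - η) * ((J : ℝ) ^ η * (2 * Real.pi * kp J m)) := by ring
        _ ≤ (J : ℝ) ^ (1 - η) * ((X : ℝ) ^ (1 / 4 : ℝ) * (2 * Real.pi * kp J m)) := by gcongr
        _ ≤ (J : ℝ) ^ (1 - η) * Y := by gcongr
    calc ‖∑ k ∈ range l, osc Y m (u + k)‖ ≤ C * ((J : ℝ) ^ (1 - η) + J * (2 * Real.pi * kp J m) / Y) := h1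
      _ ≤ C * ((J : ℝ) ^ (1 - η) + (J : ℝ) ^ (1 - η)) := by gcongr
      _ = 2 * C * 1 * (J : ℝ) ^ (1 - η) := by ring
      _ ≤ 2 * C * T ^ (35 / 100 * η) * (J : ℝ) ^ (1 - η) := by gcongr
  · have h1 : ‖∑ k ∈ range l, osc Y m (u + k)‖ ≤ J := by
      refine (norm_sum_le _ _).trans ?_
      simp only [norm_osc, sum_const, card_range, nsmul_eq_mul, mul_one]
      exact_mod_cast hlJ
    have h2 : (J : ℝ) ^ 3 ≤ T ^ (21 / 20 : ℝ) := by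
      have h3 : (J : ℝ) ^ 3 ≤ 2 * Real.pi * kp J m * (J : ℝ) ^ 3 := by
        have : 0 ≤ (J : ℝ) ^ 3 := by positivity
        nlinarith [mul_le_mul_of_nonneg_left hkp1 (by positivity : 0 ≤ 2 * Real.pi)]
      linarith
    have h4 : (J : ℝ) ^ η ≤ T ^ (35 / 100 * η) := by
      have e3 : (J : ℝ) ^ η = ((J : ℝ) ^ 3) ^ (η / 3) := by
        rw [← Real.rpow_natCast, ← Real.rpow_mul (by linarith)]
        congr 1
        push_cast
        ring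
      have e4 : T ^ (35 / 100 * η) = (T ^ (21 / 20 : ℝ)) ^ (η / 3) := by
        rw [← Real.rpow_mul (by linarith)]
        congr 1
        ring
      rw [e3, e4]
      exact Real.rpow_le_rpow (by positivity) h2 (by positivity)
    have e1 : (J : ℝ) = (J : ℝ) ^ η * (J : ℝ) ^ (1 - η) := by
      rw [← Real.rpow_add (by linarith)]
      simp
    calc ‖∑ k ∈ range l, osc Y m (u + k)‖ ≤ J := h1
      _ = (J : ℝ) ^ η * (J : ℝ) ^ (1 - η) := e1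
      _ ≤ 2 * C * (J : ℝ) ^ η * (J : ℝ) ^ (1 - η) := by
          have : 0 ≤ (J : ℝ) ^ η := by positivity
          gcongr
          nlinarith
      _ ≤ 2 * C * T ^ (35 / 100 * η) * (J : ℝ) ^ (1 - η) := by gcongr

end Pool.Agent.K1H51.DL
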