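import Pool.Agent.K1H51.DL.Core4

set_option autoImplicit false

/-!
The ranges of `y`.
-/

namespace Pool.Agent.K1H51.DL

open Finset
open Complex (I)
open Pool.Agent.Y969.GP (ht lam PS)

lemma Sg_conj (X : ℕ) {T : ℝ} (hT : 0 < T) (σ τ y : ℝ) :
    (starRingEnd ℂ) (Sg X T σ τ y) = Sg X T σ (-τ) (-y) := by
  unfold Sg
  rw [map_mul, map_mul, map_sum, Complex.conj_ofReal, ← Complex.Gamma_conj]
  have e1 : (starRingEnd ℂ) (4 + σ + I * y) = 4 + σ + I * ((-y : ℝ) : ℂ) := by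
    rw [map_add, map_add, map_mul, Complex.conj_I, Complex.conj_ofReal, Complex.conj_ofReal]
    have : (starRingEnd ℂ) (4 : ℂ) = 4 := by
      have := Complex.conj_ofReal 4
      exact_mod_cast this
    rw [this]
    push_cast
    ring
  rw [e1]
  congr 1
  refine sum_nbij' Prod.swap Prod.swap ?_ ?_ ?_ ?_ ?_
  · intro p hp
    obtain ⟨a, b⟩ := mem_filter.1 hp
    exact mem_filter.2 ⟨swap_mem a, fun h => b h.symm⟩
  · intro p hp
    obtain ⟨a, b⟩ := mem_filter.1 hp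
    exact mem_filter.2 ⟨swap_mem a, fun h => b h.symm⟩
  · intro p _; exact Prod.swap_swap p
  · intro p _; exact Prod.swap_swap p
  · intro p _
    have hne : (((T⁻¹ : ℝ) : ℂ) - I * ((lam p : ℝ) : ℂ)).arg ≠ Real.pi := by
      rw [r_arg hT]
      have := Real.neg_pi_div_two_lt_arctan (T * lam p)
      have := Real.pi_pos
      intro h
      linarith
    rw [map_mul, ← Complex.exp_conj, ← Complex.exp_conj, map_neg, map_neg, map_mul, map_mul, ← Complex.log_conj _ hne,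
      e1, Complex.conj_ofReal, map_sub, map_mul, Complex.conj_I, Complex.conj_ofReal, Complex.conj_ofReal, ht_swap,
      lam_swap]
    have e2 : (starRingEnd ℂ) (1 / 2 + σ + I * τ) = 1 / 2 + σ + I * ((-τ : ℝ) : ℂ) := by
      rw [map_add, map_add, map_mul, Complex.conj_I, Complex.conj_ofReal, Complex.conj_ofReal]
      have : (starRingEnd ℂ) (1 / 2 : ℂ) = 1 / 2 := by
        have := Complex.conj_ofReal (1 / 2)
        push_cast at this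
        exact this
      rw [this]
      push_cast
      ring
    have e3 : ((T⁻¹ : ℝ) : ℂ) - -I * ((lam p : ℝ) : ℂ) = ((T⁻¹ : ℝ) : ℂ) - I * ((-lam p : ℝ) : ℂ) := by
      push_cast; ring
    rw [e2, e3]

/-- a crude bound -/
lemma Kf_crude {σ : ℝ} (hσ : 0 < σ) (hσ1 : σ ≤ 1) : ∃ C : ℝ, 1 ≤ C ∧ ∀ (T y : ℝ) (X : ℕ) (p : ℕ × ℕ), 1 ≤ T →
    p ∈ PS X → p.1 ≠ p.2 → Kf T σ y (lam p) ≤ C * (T ^ 5 * (X : ℝ) ^ 10) ∧
      (0 ≤ y * lam p → Kf T σ y (lam p) ≤ C * ((X : ℝ) ^ 5 * Real.exp (-|y|))) := by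
  obtain ⟨C, hC, h⟩ := Kf_le hσ
  refine ⟨C * 9600000, by nlinarith, fun T y X p hT hp hne => ?_⟩
  have hT0 : 0 < T := by linarith
  obtain ⟨l1, l2⟩ := lam_abs hp hne
  obtain ⟨m1, m2, m3⟩ := mem_PS.1 hp
  have hX1 : (1 : ℝ) ≤ X := by
    have : 1 ≤ X := le_trans (Nat.mul_pos m1 m2) m3
    exact_mod_cast this
  set l := lam p with hl
  have hX0 : (0 : ℝ) < X := by linarith
  have hsX : 0 < √(X : ℝ) := Real.sqrt_pos.2 hX0
  have hl0 : 0 < |l| := lt_of_lt_of_le (by positivity) l2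
  have hlne : l ≠ 0 := abs_pos.1 hl0
  have hlX : |l| ≤ X := l1.trans (by linarith [Real.log_le_sub_one_of_pos hX0])
  have hq : 0 < 1 + |y| := by positivity
  have hsX1 : √(X : ℝ) ≤ X := by
    rw [Real.sqrt_le_left (by linarith)]
    nlinarith
  have hlp : |l| ^ (-(4 + σ)) ≤ 32 * (X : ℝ) ^ 5 := by
    have h1 : |l| ^ (-(4 + σ)) ≤ (1 / (2 * √(X : ℝ))) ^ (-(4 + σ)) :=
      Real.rpow_le_rpow_of_nonpos (by positivity) l2 (by linarith)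
    have h2 : (1 / (2 * √(X : ℝ))) ^ (-(4 + σ)) = (2 * √(X : ℝ)) ^ (4 + σ) := by
      rw [one_div, Real.inv_rpow (by positivity), Real.rpow_neg (by positivity), inv_inv]
    have h3 : (2 * √(X : ℝ)) ^ (4 + σ) ≤ (2 * X) ^ (4 + σ) :=
      Real.rpow_le_rpow (by positivity) (by linarith) (by linarith)
    have h4 : (2 * (X : ℝ)) ^ (4 + σ) ≤ (2 * X) ^ (5 : ℝ) :=
      Real.rpow_le_rpow_of_exponent_le (by linarith) (by linarith)
    have h5 : (2 * (X : ℝ)) ^ (5 : ℝ) = (2 * X) ^ 5 := by exact_mod_cast Real.rpow_natCast (2 * (X : ℝ)) 5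
    rw [h2] at h1
    calc _ ≤ (2 * (X : ℝ)) ^ 5 := by rw [← h5]; exact h1.trans (h3.trans h4)
      _ = _ := by ring
  have hq5 : (1 + |y|) ^ (7 / 2 + σ) ≤ (1 + |y|) ^ 5 := by
    have h4 : (1 + |y|) ^ (7 / 2 + σ) ≤ (1 + |y|) ^ (5 : ℝ) :=
      Real.rpow_le_rpow_of_exponent_le (by linarith [abs_nonneg y]) (by linarith)
    have h5 : (1 + |y|) ^ (5 : ℝ) = (1 + |y|) ^ 5 := by exact_mod_cast Real.rpow_natCast (1 + |y|) 5
    rwa [h5] at h4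
  have hT4 : (T ^ 4)⁻¹ ≤ 1 := inv_le_one_of_one_le₀ (one_le_pow₀ hT)
  have hC0 : 0 ≤ C := by linarith
  constructor
  · refine (h T y l hT0 hlne).1.trans ?_
    set z0 : ℝ := (T * X)⁻¹ with hz0
    have hTX : 1 ≤ T * X := by nlinarith
    have hz0p : 0 < z0 := by positivity
    have hz01 : z0 ≤ 1 := inv_le_one_of_one_le₀ hTX
    have hz : z0 ≤ min 1 (T * |l|)⁻¹ := by
      refine le_min hz01 ?_
      apply inv_anti₀ (by positivity)
      gcongr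
    have h1 : Real.exp (-(|y| * (min 1 (T * |l|)⁻¹ / 2))) ≤ Real.exp (-(|y| * z0 / 2)) := by
      rw [Real.exp_le_exp]
      have := mul_le_mul_of_nonneg_left hz (abs_nonneg y)
      linarith
    have h2 : (1 + |y|) ^ 5 ≤ (T * X) ^ 5 * (300000 * Real.exp (|y| * z0 / 4)) := by
      have h3 : 1 + |y| ≤ (T * X) * (1 + |y| * z0) := by
        have : (T * X) * (1 + |y| * z0) = T * X + |y| := by
          rw [hz0]
          have : T * X ≠ 0 := by positivity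
          field_simp
        rw [this]
        linarith
      calc (1 + |y|) ^ 5 ≤ ((T * X) * (1 + |y| * z0)) ^ 5 := by gcongr
        _ = (T * X) ^ 5 * (1 + |y| * z0) ^ 5 := by ring
        _ ≤ _ := by
            have := pow5_le (|y| * z0) (by positivity)
            gcongr
    have h4 : Real.exp (|y| * z0 / 4) * Real.exp (-(|y| * z0 / 2)) ≤ 1 := by
      rw [← Real.exp_add, Real.exp_le_one_iff]
      have : 0 ≤ |y| * z0 := by positivity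
      linarith
    calc C * ((T ^ 4)⁻¹ * (1 + |y|) ^ (7 / 2 + σ) * |l| ^ (-(4 + σ)) * Real.exp (-(|y| * (min 1 (T * |l|)⁻¹ / 2))))
        ≤ C * (1 * ((T * X) ^ 5 * (300000 * Real.exp (|y| * z0 / 4))) * (32 * (X : ℝ) ^ 5) *
            Real.exp (-(|y| * z0 / 2))) := by
          have := hq5.trans h2
          gcongr
      _ = C * 9600000 * (T ^ 5 * (X : ℝ) ^ 10) * (Real.exp (|y| * z0 / 4) * Real.exp (-(|y| * z0 / 2))) := by ring
      _ ≤ C * 9600000 * (T ^ 5 * (X : ℝ) ^ 10) * 1 := by gcongr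
      _ = _ := by ring
  · intro hyl
    refine ((h T y l hT0 hlne).2 hyl).trans ?_
    have h2 := pow5_le |y| (abs_nonneg y)
    have h4 : Real.exp (|y| / 4) * Real.exp (-(Real.pi / 2 * |y|)) ≤ Real.exp (-|y|) := by
      rw [← Real.exp_add, Real.exp_le_exp]
      nlinarith [Real.pi_gt_three, abs_nonneg y]
    calc C * ((T ^ 4)⁻¹ * (1 + |y|) ^ (7 / 2 + σ) * |l| ^ (-(4 + σ)) * Real.exp (-(Real.pi / 2 * |y|)))
        ≤ C * (1 * (300000 * Real.exp (|y| / 4)) * (32 * (X : ℝ) ^ 5) * Real.exp (-(Real.pi / 2 * |y|))) := by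
          have := hq5.trans h2
          gcongr
      _ = C * 9600000 * (X : ℝ) ^ 5 * (Real.exp (|y| / 4) * Real.exp (-(Real.pi / 2 * |y|))) := by ring
      _ ≤ C * 9600000 * (X : ℝ) ^ 5 * Real.exp (-|y|) := by gcongr
      _ = _ := by ring

/-- sums over sets of pairs -/
lemma sum_crude {T σ y B : ℝ} {X : ℕ} (hT : 0 < T) (S : Finset (ℕ × ℕ)) (hS : S ⊆ PS X)
    (hB : ∀ p ∈ S, Kf T σ y (lam p) ≤ B) (hB0 : 0 ≤ B) :
    ∑ p ∈ S, (√(ht p))⁻¹ * Kf T σ y (lam p) ≤ (X : ℝ) ^ 2 * B := by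
  calc ∑ p ∈ S, (√(ht p))⁻¹ * Kf T σ y (lam p) ≤ ∑ _p ∈ S, B := by
        refine sum_le_sum fun p hp => ?_
        have h1 := ht_one (hS hp)
        have h2 : (√(ht p))⁻¹ ≤ 1 := inv_le_one_of_one_le₀ (Real.one_le_sqrt.2 h1)
        have h3 := hB p hp
        have h4 := Kf_nonneg hT σ y (lam p)
        calc (√(ht p))⁻¹ * Kf T σ y (lam p) ≤ 1 * Kf T σ y (lam p) := by gcongr
          _ ≤ B := by linarith
    _ = (S.card : ℝ) * B := by rw [sum_const, nsmul_eq_mul]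
    _ ≤ (X : ℝ) ^ 2 * B := by
        have h1 : (S.card : ℝ) ≤ ((PS X).card : ℝ) := by exact_mod_cast card_le_card hS
        have h2 := card_PS X
        gcongr
        linarith

/-- small `T` -/
lemma Sg_small {σ : ℝ} (hσ : 0 < σ) (hσ1 : σ ≤ 1) : ∃ C : ℝ, 1 ≤ C ∧ ∀ (T τ y : ℝ) (X : ℕ), 1 ≤ T →
    ‖Sg X T σ τ y‖ ≤ C * (T ^ 5 * (X : ℝ) ^ 12) := by
  obtain ⟨C, hC, h⟩ := Kf_crude hσ hσ1
  refine ⟨C, hC, fun T τ y X hT => ?_⟩
  refine (Sg_le (by linarith) hσ.le X τ y).trans ?_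
  refine (sum_crude (B := C * (T ^ 5 * (X : ℝ) ^ 10)) (by linarith) _ (filter_subset _ _)
    (fun p hp => (h T y X p hT (mem_filter.1 hp).1 (mem_filter.1 hp).2).1) (by positivity)).trans (le_of_eq ?_)
  ring

lemma Tl_one {T : ℝ} {X : ℕ} (hX : 2 * √(X : ℝ) ≤ T) {p : ℕ × ℕ} (hp : p ∈ PS X) (hne : p.1 ≠ p.2) :
    1 ≤ T * |lam p| := by
  obtain ⟨-, l2⟩ := lam_abs hp hne
  obtain ⟨m1, m2, m3⟩ := mem_PS.1 hp
  have hX1 : (1 : ℝ) ≤ X := by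
    have : 1 ≤ X := le_trans (Nat.mul_pos m1 m2) m3
    exact_mod_cast this
  have hsX : 0 < √(X : ℝ) := Real.sqrt_pos.2 (by linarith)
  have hT : 0 ≤ T := by linarith
  calc (1 : ℝ) = (2 * √(X : ℝ)) * (1 / (2 * √(X : ℝ))) := by field_simp
    _ ≤ T * |lam p| := by gcongr

/-- small `y` -/
lemma Sg_I {σ : ℝ} (hσ : 0 < σ) (hσ1 : σ ≤ 1) : ∃ C : ℝ, 1 ≤ C ∧ ∀ (T τ y : ℝ) (X : ℕ), 1 ≤ T →
    2 * √(X : ℝ) ≤ T →
    ‖Sg X T σ τ y‖ ≤ C * (T ^ σ * (1 + |y|) ^ (1 / 2 : ℝ) / T * (√(X : ℝ) * (1 + Real.log X) ^ 2)) := by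
  obtain ⟨C, hC, h⟩ := Kf_big hσ hσ1
  refine ⟨2 * C, by linarith, fun T τ y X hT hX => ?_⟩
  have hT0 : 0 < T := by linarith
  refine (Sg_le hT0 hσ.le X τ y).trans ?_
  have h1 : ∀ p ∈ (PS X).filter (fun p => p.1 ≠ p.2), (√(ht p))⁻¹ * Kf T σ y (lam p) ≤
      C * (T ^ σ * (1 + |y|) ^ (1 / 2 : ℝ) / T) * ((√(ht p))⁻¹ * (1 / |lam p|)) := by
    intro p hp
    obtain ⟨a, b⟩ := mem_filter.1 hp
    have h2 := (h T y (lam p) hT (Tl_one hX a b)).1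
    calc (√(ht p))⁻¹ * Kf T σ y (lam p) ≤ (√(ht p))⁻¹ * (C * (T ^ σ * (1 + |y|) ^ (1 / 2 : ℝ) / (T * |lam p|))) := by
          gcongr
      _ = _ := by
          rw [div_mul_eq_div_div]
          ring
  calc _ ≤ ∑ p ∈ (PS X).filter (fun p => p.1 ≠ p.2),
        C * (T ^ σ * (1 + |y|) ^ (1 / 2 : ℝ) / T) * ((√(ht p))⁻¹ * (1 / |lam p|)) := sum_le_sum h1
    _ = C * (T ^ σ * (1 + |y|) ^ (1 / 2 : ℝ) / T) *
        ∑ p ∈ (PS X).filter (fun p => p.1 ≠ p.2), (√(ht p))⁻¹ * (1 / |lam p|) := by rw [mul_sum]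
    _ ≤ C * (T ^ σ * (1 + |y|) ^ (1 / 2 : ℝ) / T) * (2 * (√X * (1 + Real.log X) ^ 2)) := by
        have := sum_inv_lam X
        gcongr
    _ = _ := by ring

/-- sums with the exponential bound -/
lemma sum_exp {σ : ℝ} (hσ : 0 < σ) (hσ1 : σ ≤ 1) : ∃ C : ℝ, 1 ≤ C ∧ ∀ (T y v : ℝ) (X : ℕ) (S : Finset (ℕ × ℕ)),
    1 ≤ T → 2 * √(X : ℝ) ≤ T → S ⊆ PS X → (∀ p ∈ S, p.1 ≠ p.2 ∧ v * (T * |lam p|) ≤ 1 + |y|) →
    ∑ p ∈ S, (√(ht p))⁻¹ * Kf T σ y (lam p) ≤ C * ((X : ℝ) ^ 2 * T ^ σ * Real.exp (-(v / 4))) := by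
  obtain ⟨C, hC, h⟩ := Kf_big hσ hσ1
  refine ⟨C, hC, fun T y v X S hT hX hS hv => ?_⟩
  have hT0 : 0 < T := by linarith
  refine (sum_crude (B := C * (T ^ σ * Real.exp (-(v / 4)))) hT0 S hS (fun p hp => ?_) (by positivity)).trans
    (le_of_eq (by ring))
  obtain ⟨a, b⟩ := hv p hp
  have h1 := Tl_one hX (hS hp) a
  refine (h T y (lam p) hT h1).2.trans ?_
  have h2 : v ≤ (1 + |y|) / (T * |lam p|) := by rw [le_div_iff₀ (by linarith)]; exact b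
  have h3 : Real.exp (-((1 + |y|) / (T * |lam p|) / 4)) ≤ Real.exp (-(v / 4)) := by
    rw [Real.exp_le_exp]; linarith
  gcongr

/-- middle `y` -/
lemma Sg_II {σ : ℝ} (hσ : 0 < σ) (hσ1 : σ ≤ 1) : ∃ C : ℝ, 1 ≤ C ∧ ∀ (T τ y l0 v η D : ℝ) (X : ℕ), 1 ≤ T →
    2 * √(X : ℝ) ≤ T → y ≤ 0 → 0 < l0 → l0 ≤ 1 → 0 ≤ v → v * (T * l0) ≤ 1 + |y| → 0 ≤ η → η ≤ 1 / 2 → 0 ≤ D →
    (∀ m J u l : ℕ, 1 ≤ m → 1 ≤ J → J ≤ u → l ≤ J → J ≤ X → u + l ≤ 3 * J →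
      ‖∑ k ∈ range l, osc (-y) m (u + k)‖ ≤ D * (J : ℝ) ^ (1 - η)) →
    ‖Sg X T σ τ y‖ ≤ C * ((T ^ 4)⁻¹ * (1 + |y|) ^ (7 / 2 + σ) * ((l0 ^ 5)⁻¹ * (1 + Bt T τ y l0) * D *
        ((X : ℝ) ^ ((1 - η) / 2)) * (((Nat.log 2 X : ℝ) + 1) * (1 + Real.log X)))) +
      C * ((X : ℝ) ^ 2 * T ^ σ * Real.exp (-(v / 4))) + C * ((X : ℝ) ^ 7 * Real.exp (-|y|)) := by
  obtain ⟨C1, hC1, hG⟩ := Pool.Agent.Helper242.RK.Gamma_upper (σ := 4 + σ) (by linarith)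
  obtain ⟨C2, hC2, h2⟩ := sum_exp hσ hσ1
  obtain ⟨C3, hC3, h3⟩ := Kf_crude hσ hσ1
  have hC1' : 0 ≤ C1 := by linarith
  refine ⟨C1 + C2 + C3, by linarith, ?_⟩
  intro T τ y l0 v η D X hT hX hy hl0 hl1 hv0 hv hη hη1 hD0 hD
  have hT0 : 0 < T := by linarith
  have hm := main_le (T := T) (σ := σ) (τ := τ) (y := y) hT0 hσ.le hσ1 hy hl0 hl1 hη hη1 hD0 hD
  set Q : ℝ := (l0 ^ 5)⁻¹ * (1 + Bt T τ y l0) * D * ((X : ℝ) ^ ((1 - η) / 2)) *
    (((Nat.log 2 X : ℝ) + 1) * (1 + Real.log X)) with hQ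
  have hQ0 : 0 ≤ Q := (norm_nonneg _).trans hm
  -- the terms
  set E : ℕ × ℕ → ℂ := fun p => Complex.exp (-((1 / 2 + σ + I * τ) * ((Real.log (ht p) : ℝ) : ℂ))) *
        Complex.exp (-((4 + σ + I * y) * Complex.log (((T⁻¹ : ℝ) : ℂ) - I * ((lam p : ℝ) : ℂ)))) with hE
  set G : ℂ := (((T ^ 4)⁻¹ : ℝ) : ℂ) * Complex.Gamma (4 + σ + I * y) with hGd
  have hE1 : ∀ p ∈ PS X, ‖G‖ * ‖E p‖ ≤ (√(ht p))⁻¹ * Kf T σ y (lam p) := by
    intro p hp
    have hp1 := ht_one hp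
    have h1 : ‖Complex.exp (-((1 / 2 + (σ : ℂ) + I * (τ : ℂ)) * ((Real.log (ht p) : ℝ) : ℂ)))‖ ≤ (√(ht p))⁻¹ := by
      rw [Complex.norm_exp]
      have e1 : (-((1 / 2 + (σ : ℂ) + I * (τ : ℂ)) * ((Real.log (ht p) : ℝ) : ℂ))).re =
          -(1 / 2 * Real.log (ht p)) - σ * Real.log (ht p) := by
        rw [Complex.neg_re, Complex.re_mul_ofReal]
        simp
        ring
      have e2 : (√(ht p))⁻¹ = Real.exp (-(1 / 2 * Real.log (ht p))) := by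
        rw [Real.exp_neg, Real.sqrt_eq_rpow, Real.rpow_def_of_pos (by linarith)]
        ring_nf
      rw [e1, e2, Real.exp_le_exp]
      have : 0 ≤ σ * Real.log (ht p) := mul_nonneg hσ.le (Real.log_nonneg hp1)
      linarith
    rw [hE, hGd]
    simp only
    rw [norm_mul, norm_mul, Complex.norm_real, Real.norm_of_nonneg (by positivity)]
    unfold Kf
    calc (T ^ 4)⁻¹ * ‖Complex.Gamma (4 + σ + I * y)‖ *
        (‖Complex.exp (-((1 / 2 + (σ : ℂ) + I * (τ : ℂ)) * ((Real.log (ht p) : ℝ) : ℂ)))‖ *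
          ‖Complex.exp (-((4 + σ + I * y) * Complex.log (((T⁻¹ : ℝ) : ℂ) - I * ((lam p : ℝ) : ℂ))))‖)
        ≤ (T ^ 4)⁻¹ * ‖Complex.Gamma (4 + σ + I * y)‖ * ((√(ht p))⁻¹ *
          ‖Complex.exp (-((4 + σ + I * y) * Complex.log (((T⁻¹ : ℝ) : ℂ) - I * ((lam p : ℝ) : ℂ))))‖) := by
          gcongr
      _ = _ := by ring
  -- splitting
  set A := (PS X).filter (fun p => p.1 < p.2 ∧ l0 ≤ lam p) with hA
  set B := (PS X).filter (fun p => p.1 < p.2 ∧ lam p < l0) with hB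
  set D' := (PS X).filter (fun p => p.2 < p.1) with hD'
  have hsplit : (PS X).filter (fun p => p.1 ≠ p.2) = (A ∪ B) ∪ D' := by
    ext p
    simp only [hA, hB, hD', mem_union, mem_filter]
    constructor
    · rintro ⟨a, b⟩
      rcases lt_or_gt_of_ne b with h | h
      · rcases le_or_gt l0 (lam p) with h' | h'
        · exact Or.inl (Or.inl ⟨a, h, h'⟩)
        · exact Or.inl (Or.inr ⟨a, h, h'⟩)
      · exact Or.inr ⟨a, h⟩
    · rintro ((⟨a, b, -⟩ | ⟨a, b, -⟩) | ⟨a, b⟩)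
      · exact ⟨a, b.ne⟩
      · exact ⟨a, b.ne⟩
      · exact ⟨a, b.ne'⟩
  have hd1 : Disjoint A B := by
    rw [hA, hB, disjoint_filter]
    intro p _ h h'
    linarith [h.2, h'.2]
  have hd2 : Disjoint (A ∪ B) D' := by
    rw [disjoint_union_left, hA, hB, hD', disjoint_filter, disjoint_filter]
    constructor
    · intro p _ h h'
      omega
    · intro p _ h h'
      omega
  have hS : Sg X T σ τ y = G * ∑ p ∈ A, E p + G * ∑ p ∈ B, E p + G * ∑ p ∈ D', E p := by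
    unfold Sg
    rw [hsplit, sum_union hd2, sum_union hd1]
    ring
  rw [hS]
  refine (norm_add₃_le).trans ?_
  clear hS
  clear_value G
  -- the first sum
  have t1 : ‖G * ∑ p ∈ A, E p‖ ≤ C1 * ((T ^ 4)⁻¹ * (1 + |y|) ^ (7 / 2 + σ) * Q) := by
    have e1 : ∑ p ∈ A, E p = Complex.exp ((4 + σ + I * y) * (I * (Real.pi / 2 : ℝ))) *
        ∑ p ∈ A, tm T σ τ y p.1 (p.2 - p.1) := by
      rw [mul_sum]
      refine sum_congr rfl fun p hp => ?_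
      obtain ⟨a, b, -⟩ := mem_filter.1 hp
      exact term_eq hT0 (mem_PS.1 a).1 b
    have e2 : ‖Complex.exp ((4 + σ + I * y) * (I * (Real.pi / 2 : ℝ)))‖ = Real.exp (Real.pi / 2 * |y|) := by
      rw [Complex.norm_exp]
      congr 1
      rw [abs_of_nonpos hy]
      simp
      ring
    have e3 : ‖G‖ * Real.exp (Real.pi / 2 * |y|) ≤ C1 * ((T ^ 4)⁻¹ * (1 + |y|) ^ (7 / 2 + σ)) := by
      rw [hGd, norm_mul, Complex.norm_real, Real.norm_of_nonneg (by positivity)]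
      have hg : ‖Complex.Gamma (4 + σ + I * y)‖ ≤
          C1 * (1 + |y|) ^ (7 / 2 + σ) * Real.exp (-(Real.pi / 2 * |y|)) := by
        have := hG y
        have e1 : (((4 + σ : ℝ) : ℂ) + y * I) = 4 + σ + I * y := by push_cast; ring
        rw [e1] at this
        rw [show (7 : ℝ) / 2 + σ = 4 + σ - 1 / 2 by ring]
        exact this
      calc (T ^ 4)⁻¹ * ‖Complex.Gamma (4 + σ + I * y)‖ * Real.exp (Real.pi / 2 * |y|) ≤
          (T ^ 4)⁻¹ * (C1 * (1 + |y|) ^ (7 / 2 + σ) * Real.exp (-(Real.pi / 2 * |y|))) * Real.exp (Real.pi / 2 * |y|) := by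
            gcongr
        _ = C1 * ((T ^ 4)⁻¹ * (1 + |y|) ^ (7 / 2 + σ)) * (Real.exp (-(Real.pi / 2 * |y|)) * Real.exp (Real.pi / 2 * |y|)) := by
            ring
        _ = _ := by rw [← Real.exp_add]; simp
    rw [norm_mul, e1, norm_mul, e2, ← mul_assoc]
    calc ‖G‖ * Real.exp (Real.pi / 2 * |y|) * ‖∑ p ∈ A, tm T σ τ y p.1 (p.2 - p.1)‖ ≤
        C1 * ((T ^ 4)⁻¹ * (1 + |y|) ^ (7 / 2 + σ)) * Q := mul_le_mul e3 hm (norm_nonneg _) (by positivity)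
      _ = _ := by ring
  -- general
  have tg : ∀ S : Finset (ℕ × ℕ), S ⊆ PS X → ‖G * ∑ p ∈ S, E p‖ ≤ ∑ p ∈ S, (√(ht p))⁻¹ * Kf T σ y (lam p) := by
    intro S hS
    rw [norm_mul]
    calc ‖G‖ * ‖∑ p ∈ S, E p‖ ≤ ‖G‖ * ∑ p ∈ S, ‖E p‖ := by gcongr; exact norm_sum_le _ _
      _ = ∑ p ∈ S, ‖G‖ * ‖E p‖ := by rw [mul_sum]
      _ ≤ _ := sum_le_sum fun p hp => hE1 p (hS hp)
  have t2 : ‖G * ∑ p ∈ B, E p‖ ≤ C2 * ((X : ℝ) ^ 2 * T ^ σ * Real.exp (-(v / 4))) := by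
    refine (tg B (filter_subset _ _)).trans (h2 T y v X B hT hX (filter_subset _ _) fun p hp => ?_)
    obtain ⟨a, b, c⟩ := mem_filter.1 hp
    refine ⟨b.ne, le_trans ?_ hv⟩
    obtain ⟨-, -, c3, -⟩ := lam_lt a b
    have hl : 0 ≤ lam p := le_trans (by positivity) c3
    rw [abs_of_nonneg hl]
    gcongr
  have t3 : ‖G * ∑ p ∈ D', E p‖ ≤ C3 * ((X : ℝ) ^ 7 * Real.exp (-|y|)) := by
    refine (tg D' (filter_subset _ _)).trans ?_
    refine (sum_crude (B := C3 * ((X : ℝ) ^ 5 * Real.exp (-|y|))) hT0 _ (filter_subset _ _) (fun p hp => ?_)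
      (by positivity)).trans (le_of_eq (by ring))
    obtain ⟨a, b⟩ := mem_filter.1 hp
    refine (h3 T y X p hT a b.ne').2 ?_
    obtain ⟨-, -, c3, -⟩ := lam_lt (swap_mem a) b
    rw [lam_swap] at c3
    have hl : 0 ≤ -lam p := le_trans (by positivity) c3
    exact mul_nonneg_of_nonpos_of_nonpos hy (by linarith)
  have p1 : 0 ≤ (T ^ 4)⁻¹ * (1 + |y|) ^ (7 / 2 + σ) * Q := by positivity
  have p2 : 0 ≤ (X : ℝ) ^ 2 * T ^ σ * Real.exp (-(v / 4)) := by positivity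
  have p3 : 0 ≤ (X : ℝ) ^ 7 * Real.exp (-|y|) := by positivity
  have hC2' : 0 ≤ C2 := by linarith
  have hC3' : 0 ≤ C3 := by linarith
  refine (add_le_add (add_le_add t1 t2) t3).trans ?_
  gcongr
  · linarith
  · linarith
  · linarith

end Pool.Agent.K1H51.DL
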