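import Pool.Agent.K1H51.DL.Core5

set_option autoImplicit false

/-!
`S_CORE` from `S_PH`.
-/

namespace Pool.Agent.K1H51.DL

open Finset Filter
open Complex (I)
open Pool.Agent.Y969.GP (ht lam PS)

lemma exp_ev {κ a : ℝ} (hκ : 0 < κ) (ha : 0 < a) (b : ℝ) :
    ∀ᶠ T : ℝ in atTop, Real.exp (-(a * T ^ κ)) ≤ T ^ (-b) := by
  have h1 := (isLittleO_exp_neg_mul_rpow_atTop ha (-b / κ)).comp_tendsto (tendsto_rpow_atTop hκ)
  have h2 := h1.bound one_pos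
  filter_upwards [h2, eventually_ge_atTop 1] with T hT hT1
  have hT0 : 0 < T := by linarith
  simp only [Function.comp, one_mul, Real.norm_eq_abs] at hT
  rw [abs_of_pos (Real.exp_pos _), abs_of_pos (by positivity), ← Real.rpow_mul hT0.le] at hT
  have e : κ * (-b / κ) = -b := by field_simp
  rw [e] at hT
  rw [← neg_mul]
  exact hT

lemma log_T {e : ℝ} (he : 0 < e) {T : ℝ} (hT : 1 ≤ T) : 1 + 2 * Real.log T ≤ (1 + 2 / e) * T ^ e := by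
  have h := Real.log_le_rpow_div (by linarith : 0 ≤ T) he
  have h1 : 1 ≤ T ^ e := Real.one_le_rpow hT he.le
  have : 2 * (T ^ e / e) = 2 / e * T ^ e := by ring
  nlinarith

lemma log_X {T : ℝ} {X : ℕ} (hT : 1 ≤ T) (hX : (X : ℝ) ≤ T ^ 2) : Real.log X ≤ 2 * Real.log T ∧
    1 + Real.log X ≤ 1 + 2 * Real.log T ∧ (Nat.log 2 X : ℝ) + 1 ≤ 2 * (1 + 2 * Real.log T) ∧ 0 ≤ Real.log X := by
  have hlT := Real.log_nonneg hT
  rcases Nat.eq_zero_or_pos X with h | h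
  · subst h
    simp only [Nat.cast_zero, Real.log_zero, Nat.log_zero_right, le_refl]
    refine ⟨by linarith, by linarith, by linarith, trivial⟩
  · have hX1 : (1 : ℝ) ≤ X := by exact_mod_cast h
    have h1 : Real.log X ≤ 2 * Real.log T := by
      have := Real.log_le_log (by linarith) hX
      rwa [Real.log_pow] at this
    have h0 := Real.log_nonneg hX1
    refine ⟨h1, by linarith, ?_, h0⟩
    have h2 := Real.natLog_le_logb X 2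
    have h3 : Real.logb (2 : ℕ) X ≤ 2 * Real.log X := by
      unfold Real.logb
      have h4 := Real.log_two_gt_d9
      rw [div_le_iff₀ (by norm_num; linarith)]
      push_cast
      nlinarith
    linarith

lemma Bt_le {T τ y κ : ℝ} (hT : 1 ≤ T) (hκ : 0 < κ) (hy : |y| ≤ T ^ (1 + κ)) :
    1 + Bt T τ y (T ^ (-(2 * κ))) ≤ 14 * (1 + |τ|) * T ^ (5 * κ) := by
  have hT0 : 0 < T := by linarith
  unfold Bt
  have a1 : 1 ≤ T ^ (5 * κ) := Real.one_le_rpow hT (by positivity)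
  have a2 : 5 / T ^ (-(2 * κ)) ≤ 5 * T ^ (5 * κ) := by
    rw [Real.rpow_neg hT0.le, div_inv_eq_mul]
    have : T ^ (2 * κ) ≤ T ^ (5 * κ) := Real.rpow_le_rpow_of_exponent_le hT (by linarith)
    linarith
  have a3 : (5 + |y|) / (T * (T ^ (-(2 * κ))) ^ 2) ≤ 6 * T ^ (5 * κ) := by
    rw [div_le_iff₀ (by positivity)]
    have e1 : (T ^ (-(2 * κ))) ^ 2 = T ^ (-(4 * κ)) := by
      rw [← Real.rpow_natCast, ← Real.rpow_mul hT0.le]
      congr 1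
      push_cast
      ring
    have e2 : 6 * T ^ (5 * κ) * (T * (T ^ (-(2 * κ))) ^ 2) = 6 * T ^ (1 + κ) := by
      rw [e1]
      have e3 : T ^ (1 + κ) = T ^ (5 * κ) * (T ^ (1 : ℝ) * T ^ (-(4 * κ))) := by
        rw [← Real.rpow_add hT0, ← Real.rpow_add hT0]
        ring_nf
      rw [Real.rpow_one] at e3
      rw [e3]
      ring
    rw [e2]
    have : 1 ≤ T ^ (1 + κ) := Real.one_le_rpow hT (by linarith)
    linarith
  have h0 : 0 ≤ |τ| := abs_nonneg τ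
  nlinarith

/-- small `y` -/
lemma rng_I {κ : ℝ} (hκ : 0 < κ) (hκ1 : κ ≤ 1 / 100) : ∃ C : ℝ, 1 ≤ C ∧ ∀ (T τ y : ℝ) (X : ℕ), 1 ≤ T →
    (X : ℝ) ≤ T ^ (1 + κ / 8) → (X : ℝ) ≤ T ^ 2 → 2 * √(X : ℝ) ≤ T → |y| ≤ T ^ (1 - κ) →
    ‖Sg X T (κ / 8) τ y‖ ≤ C * T ^ (-(κ / 8)) := by
  obtain ⟨C, hC, h⟩ := Sg_I (σ := κ / 8) (by positivity) (by linarith)
  refine ⟨C * (2 * (1 + 2 / (κ / 32)) ^ 2), ?_, ?_⟩
  · have h0 : 0 < 2 / (κ / 32) := by positivity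
    have h1 : 1 ≤ (1 + 2 / (κ / 32)) ^ 2 := one_le_pow₀ (by linarith)
    nlinarith
  intro T τ y X hT hX hX2 hsX hy
  have hT0 : 0 < T := by linarith
  obtain ⟨-, l2, -, l4⟩ := log_X hT hX2
  have l5 := log_T (e := κ / 32) (by positivity) hT
  refine (h T τ y X hT hsX).trans ?_
  have a1 : (1 + |y|) ^ (1 / 2 : ℝ) ≤ 2 * T ^ ((1 - κ) / 2) := by
    have h1 : 1 ≤ T ^ (1 - κ) := Real.one_le_rpow hT (by linarith)
    have h2 : 1 + |y| ≤ 4 * T ^ (1 - κ) := by linarith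
    have h3 : (1 + |y|) ^ (1 / 2 : ℝ) ≤ (4 * T ^ (1 - κ)) ^ (1 / 2 : ℝ) :=
      Real.rpow_le_rpow (by positivity) h2 (by norm_num)
    have h4 : (4 * T ^ (1 - κ)) ^ (1 / 2 : ℝ) = 2 * T ^ ((1 - κ) / 2) := by
      rw [Real.mul_rpow (by norm_num) (by positivity), ← Real.rpow_mul hT0.le]
      congr 1
      · rw [show (4 : ℝ) = 2 ^ (2 : ℝ) by norm_num, ← Real.rpow_mul (by norm_num)]
        norm_num
      · ring_nf
    rwa [h4] at h3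
  have a2 : √(X : ℝ) ≤ T ^ ((1 + κ / 8) / 2) := by
    rw [Real.sqrt_eq_rpow]
    have h3 : (X : ℝ) ^ (1 / 2 : ℝ) ≤ (T ^ (1 + κ / 8)) ^ (1 / 2 : ℝ) :=
      Real.rpow_le_rpow (by positivity) hX (by norm_num)
    rw [← Real.rpow_mul hT0.le] at h3
    convert h3 using 2
    ring
  have a3 : (1 + Real.log X) ^ 2 ≤ (1 + 2 / (κ / 32)) ^ 2 * T ^ (κ / 16) := by
    have h1 : (1 + Real.log X) ^ 2 ≤ ((1 + 2 / (κ / 32)) * T ^ (κ / 32)) ^ 2 := by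
      have : 1 + Real.log X ≤ (1 + 2 / (κ / 32)) * T ^ (κ / 32) := l2.trans l5
      gcongr
    rw [mul_pow, ← Real.rpow_natCast (T ^ (κ / 32)), ← Real.rpow_mul hT0.le] at h1
    convert h1 using 3
    push_cast
    ring
  have e1 : T ^ (κ / 8) * (2 * T ^ ((1 - κ) / 2)) / T *
      (T ^ ((1 + κ / 8) / 2) * ((1 + 2 / (κ / 32)) ^ 2 * T ^ (κ / 16))) =
      2 * (1 + 2 / (κ / 32)) ^ 2 * T ^ (-(κ / 4)) := by
    have e2 : T ^ (-(κ / 4)) = T ^ (κ / 8) * T ^ ((1 - κ) / 2) * T ^ (-1 : ℝ) * T ^ ((1 + κ / 8) / 2) * T ^ (κ / 16) := by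
      rw [← Real.rpow_add hT0, ← Real.rpow_add hT0, ← Real.rpow_add hT0, ← Real.rpow_add hT0]
      congr 1
      ring
    rw [e2, Real.rpow_neg_one]
    ring
  have e3 : T ^ (-(κ / 4)) ≤ T ^ (-(κ / 8)) := Real.rpow_le_rpow_of_exponent_le hT (by linarith)
  have hC0 : 0 ≤ C := by linarith
  calc C * (T ^ (κ / 8) * (1 + |y|) ^ (1 / 2 : ℝ) / T * (√(X : ℝ) * (1 + Real.log X) ^ 2)) ≤
      C * (T ^ (κ / 8) * (2 * T ^ ((1 - κ) / 2)) / T *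
      (T ^ ((1 + κ / 8) / 2) * ((1 + 2 / (κ / 32)) ^ 2 * T ^ (κ / 16)))) := by gcongr
    _ = C * (2 * (1 + 2 / (κ / 32)) ^ 2 * T ^ (-(κ / 4))) := by rw [e1]
    _ ≤ C * (2 * (1 + 2 / (κ / 32)) ^ 2 * T ^ (-(κ / 8))) := by gcongr
    _ = _ := by ring

/-- large `y` -/
lemma rng_III {κ : ℝ} (hκ : 0 < κ) (hκ1 : κ ≤ 1 / 100) : ∃ C : ℝ, 1 ≤ C ∧ ∀ (T τ y : ℝ) (X : ℕ), 1 ≤ T →
    (X : ℝ) ≤ T ^ 2 → 2 * √(X : ℝ) ≤ T → T ^ (1 + κ) ≤ |y| →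
    Real.exp (-(κ / 16 * T ^ (κ / 2))) ≤ T ^ (-(6 : ℝ)) →
    ‖Sg X T (κ / 8) τ y‖ ≤ C * T ^ (-(κ / 8)) := by
  obtain ⟨C, hC, h⟩ := sum_exp (σ := κ / 8) (by positivity) (by linarith)
  refine ⟨C, hC, fun T τ y X hT hX2 hsX hy hexp => ?_⟩
  have hT0 : 0 < T := by linarith
  obtain ⟨l1, -, -, l4⟩ := log_X hT hX2
  refine (Sg_le hT0 (by positivity) X τ y).trans ?_
  refine (h T y (κ / 4 * T ^ (κ / 2)) X _ hT hsX (filter_subset _ _) fun p hp => ?_).trans ?_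
  · obtain ⟨a, b⟩ := mem_filter.1 hp
    refine ⟨b, ?_⟩
    have h1 := (lam_abs a b).1
    have h2 : Real.log T ≤ T ^ (κ / 2) / (κ / 2) := Real.log_le_rpow_div hT0.le (by positivity)
    have h3 : |lam p| ≤ 4 / κ * T ^ (κ / 2) := by
      have e : 2 * (T ^ (κ / 2) / (κ / 2)) = 4 / κ * T ^ (κ / 2) := by
        field_simp
        ring
      linarith
    have e2 : κ / 4 * T ^ (κ / 2) * (T * (4 / κ * T ^ (κ / 2))) = T ^ (1 + κ) := by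
      have e3 : T ^ (1 + κ) = T ^ (1 : ℝ) * (T ^ (κ / 2) * T ^ (κ / 2)) := by
        rw [← Real.rpow_add hT0, ← Real.rpow_add hT0]
        ring_nf
      rw [e3, Real.rpow_one]
      field_simp
    calc κ / 4 * T ^ (κ / 2) * (T * |lam p|) ≤ κ / 4 * T ^ (κ / 2) * (T * (4 / κ * T ^ (κ / 2))) := by gcongr
      _ = T ^ (1 + κ) := e2
      _ ≤ 1 + |y| := by linarith
  · have e1 : κ / 4 * T ^ (κ / 2) / 4 = κ / 16 * T ^ (κ / 2) := by ring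
    rw [e1]
    have e2 : (X : ℝ) ^ 2 ≤ T ^ (4 : ℝ) := by
      have h1 : (X : ℝ) ^ 2 ≤ (T ^ 2) ^ 2 := by gcongr
      have h2 : (T ^ 2) ^ 2 = T ^ (4 : ℝ) := by
        rw [← pow_mul]; norm_cast
      rwa [h2] at h1
    have e3 : T ^ (κ / 8) ≤ T ^ (1 : ℝ) := Real.rpow_le_rpow_of_exponent_le hT (by linarith)
    have e4 : T ^ (4 : ℝ) * T ^ (1 : ℝ) * T ^ (-(6 : ℝ)) ≤ T ^ (-(κ / 8)) := by
      rw [← Real.rpow_add hT0, ← Real.rpow_add hT0]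
      exact Real.rpow_le_rpow_of_exponent_le hT (by linarith)
    have hC0 : 0 ≤ C := by linarith
    calc C * ((X : ℝ) ^ 2 * T ^ (κ / 8) * Real.exp (-(κ / 16 * T ^ (κ / 2)))) ≤
        C * (T ^ (4 : ℝ) * T ^ (1 : ℝ) * T ^ (-(6 : ℝ))) := by gcongr
      _ ≤ _ := by gcongr

end Pool.Agent.K1H51.DL
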