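import Pool.Agent.K1H51.DL.Core6

set_option autoImplicit false

/-!
`S_CORE` from `S_PH`: the end.
-/

namespace Pool.Agent.K1H51.DL

open Finset Filter
open Complex (I)
open Pool.Agent.Y969.GP (ht lam PS)

/-- middle `y` -/
lemma rng_II {η C0 κ : ℝ} (hη : 0 < η) (hη1 : η ≤ 1 / 4) (hC0 : 1 ≤ C0) (hκ : κ = η / 1000)
    (hP : ∀ (T Y : ℝ) (X m J u l : ℕ), 1 ≤ T →
      Y ≤ T ^ (21 / 20 : ℝ) → (X : ℝ) ^ (1 / 4 : ℝ) * (2 * Real.pi * (1 + Real.log (1 + X))) ≤ Y →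
      1 ≤ m → 1 ≤ J → J ≤ u → l ≤ J → J ≤ X → u + l ≤ 3 * J →
      ‖∑ k ∈ range l, osc Y m (u + k)‖ ≤ C0 * T ^ (35 / 100 * η) * (J : ℝ) ^ (1 - η)) :
    ∃ C : ℝ, 1 ≤ C ∧ ∀ (T τ y : ℝ) (X : ℕ), 1 ≤ T → (X : ℝ) ≤ T ^ (1 + κ / 8) → (X : ℝ) ≤ T ^ 2 →
      2 * √(X : ℝ) ≤ T → y ≤ 0 → T ^ (1 - κ) ≤ |y| → |y| ≤ T ^ (1 + κ) →
      (X : ℝ) ^ (1 / 4 : ℝ) * (2 * Real.pi * (1 + Real.log (1 + X))) ≤ |y| →
      Real.exp (-(1 / 4 * T ^ κ)) ≤ T ^ (-(6 : ℝ)) → Real.exp (-(1 * T ^ (1 - κ))) ≤ T ^ (-(15 : ℝ)) →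
      ‖Sg X T (κ / 8) τ y‖ ≤ C * (1 + |τ|) * T ^ (-(κ / 8)) := by
  have hκ0 : 0 < κ := by rw [hκ]; positivity
  have hκ1 : κ ≤ 1 / 4000 := by rw [hκ]; linarith
  obtain ⟨C, hC, h⟩ := Sg_II (σ := κ / 8) (by positivity) (by linarith)
  have hC' : 0 ≤ C := by linarith
  have hC0' : 0 ≤ C0 := by linarith
  set Ce : ℝ := 1 + 2 / (κ / 32) with hCe
  have hCe0 : 0 < Ce := by positivity
  have hCe1 : 1 ≤ Ce := by
    have : 0 < 2 / (κ / 32) := by positivity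
    linarith
  refine ⟨C * (896 * C0 * Ce ^ 2) + 2 * C, ?_, ?_⟩
  · have h1 : 0 ≤ C * (896 * C0 * Ce ^ 2) := by positivity
    linarith
  intro T τ y X hT hX hX2 hsX hy hy1 hy2 hXy hexp1 hexp2
  have hT0 : 0 < T := by linarith
  obtain ⟨-, l2, l3, l4⟩ := log_X hT hX2
  have l5 := log_T (e := κ / 32) (by positivity) hT
  rw [← hCe] at l5
  have hlT := Real.log_nonneg hT
  have hyabs : |y| = -y := abs_of_nonpos hy
  -- the partial sums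
  have hD : ∀ m J u l : ℕ, 1 ≤ m → 1 ≤ J → J ≤ u → l ≤ J → J ≤ X → u + l ≤ 3 * J →
      ‖∑ k ∈ range l, osc (-y) m (u + k)‖ ≤ C0 * T ^ (35 / 100 * η) * (J : ℝ) ^ (1 - η) := by
    intro m J u l
    refine hP T (-y) X m J u l hT ?_ ?_
    · rw [← hyabs]
      exact hy2.trans (Real.rpow_le_rpow_of_exponent_le hT (by linarith))
    · rw [← hyabs]
      exact hXy
  have hl01 : T ^ (-(2 * κ)) ≤ 1 := Real.rpow_le_one_of_one_le_of_nonpos hT (by linarith)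
  have hvl : T ^ κ * (T * T ^ (-(2 * κ))) ≤ 1 + |y| := by
    have e : T ^ κ * (T * T ^ (-(2 * κ))) = T ^ (1 - κ) := by
      have : T ^ (1 - κ) = T ^ κ * (T ^ (1 : ℝ) * T ^ (-(2 * κ))) := by
        rw [← Real.rpow_add hT0, ← Real.rpow_add hT0]
        ring_nf
      rw [this, Real.rpow_one]
    rw [e]
    linarith
  have hmain := h T τ y (T ^ (-(2 * κ))) (T ^ κ) η (C0 * T ^ (35 / 100 * η)) X hT hsX hy (by positivity) hl01
    (by positivity) hvl hη.le (by linarith) (by positivity) hD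
  refine hmain.trans ?_
  -- the three terms
  have b1 : (1 + |y|) ^ (7 / 2 + κ / 8) ≤ 32 * T ^ ((1 + κ) * (7 / 2 + κ / 8)) := by
    have h1 : 1 ≤ T ^ (1 + κ) := Real.one_le_rpow hT (by linarith)
    have h2 : 1 + |y| ≤ 2 * T ^ (1 + κ) := by linarith
    have h3 : (1 + |y|) ^ (7 / 2 + κ / 8) ≤ (2 * T ^ (1 + κ)) ^ (7 / 2 + κ / 8) :=
      Real.rpow_le_rpow (by positivity) h2 (by positivity)
    rw [Real.mul_rpow (by norm_num) (by positivity), ← Real.rpow_mul hT0.le] at h3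
    have h4 : (2 : ℝ) ^ (7 / 2 + κ / 8) ≤ 32 := by
      have h5 : (2 : ℝ) ^ (7 / 2 + κ / 8) ≤ (2 : ℝ) ^ (5 : ℝ) :=
        Real.rpow_le_rpow_of_exponent_le (by norm_num) (by linarith)
      have h6 : (2 : ℝ) ^ (5 : ℝ) = 32 := by norm_num
      linarith
    refine h3.trans ?_
    gcongr
  have b2 : ((T ^ (-(2 * κ))) ^ 5)⁻¹ = T ^ (10 * κ) := by
    rw [← Real.rpow_natCast, ← Real.rpow_mul hT0.le, ← Real.rpow_neg hT0.le]
    congr 1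
    push_cast
    ring
  have b3 := Bt_le (τ := τ) hT hκ0 hy2
  have b5 : (X : ℝ) ^ ((1 - η) / 2) ≤ T ^ ((1 + κ / 8) * ((1 - η) / 2)) := by
    rw [Real.rpow_mul hT0.le]
    exact Real.rpow_le_rpow (by positivity) hX (by linarith)
  have b6 : ((Nat.log 2 X : ℝ) + 1) * (1 + Real.log X) ≤ 2 * Ce ^ 2 * T ^ (κ / 16) := by
    have e : T ^ (κ / 16) = T ^ (κ / 32) * T ^ (κ / 32) := by
      rw [← Real.rpow_add hT0]
      ring_nf
    calc ((Nat.log 2 X : ℝ) + 1) * (1 + Real.log X) ≤ (2 * (1 + 2 * Real.log T)) * (1 + 2 * Real.log T) := by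
          gcongr
      _ ≤ (2 * (Ce * T ^ (κ / 32))) * (Ce * T ^ (κ / 32)) := by gcongr
      _ = _ := by rw [e]; ring
  have b7 : (T ^ 4)⁻¹ = T ^ (-(4 : ℝ)) := by
    rw [Real.rpow_neg hT0.le]
    norm_cast
  have hBt : 0 ≤ Bt T τ y (T ^ (-(2 * κ))) := by unfold Bt; positivity
  have t1 : (T ^ 4)⁻¹ * (1 + |y|) ^ (7 / 2 + κ / 8) * (((T ^ (-(2 * κ))) ^ 5)⁻¹ * (1 + Bt T τ y (T ^ (-(2 * κ)))) *
      (C0 * T ^ (35 / 100 * η)) * ((X : ℝ) ^ ((1 - η) / 2)) * (((Nat.log 2 X : ℝ) + 1) * (1 + Real.log X))) ≤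
      (896 * C0 * Ce ^ 2) * (1 + |τ|) * T ^ (-(κ / 8)) := by
    calc _ ≤ T ^ (-(4 : ℝ)) * (32 * T ^ ((1 + κ) * (7 / 2 + κ / 8))) * (T ^ (10 * κ) * (14 * (1 + |τ|) * T ^ (5 * κ)) *
          (C0 * T ^ (35 / 100 * η)) * (T ^ ((1 + κ / 8) * ((1 - η) / 2))) * (2 * Ce ^ 2 * T ^ (κ / 16))) := by
          rw [b2, b7]
          gcongr
      _ = (896 * C0 * Ce ^ 2) * (1 + |τ|) * (T ^ (-(4 : ℝ)) * T ^ ((1 + κ) * (7 / 2 + κ / 8)) * T ^ (10 * κ) *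
          T ^ (5 * κ) * T ^ (35 / 100 * η) * T ^ ((1 + κ / 8) * ((1 - η) / 2)) * T ^ (κ / 16)) := by ring
      _ ≤ (896 * C0 * Ce ^ 2) * (1 + |τ|) * T ^ (-(κ / 8)) := by
          gcongr
          rw [← Real.rpow_add hT0, ← Real.rpow_add hT0, ← Real.rpow_add hT0, ← Real.rpow_add hT0,
            ← Real.rpow_add hT0, ← Real.rpow_add hT0]
          apply Real.rpow_le_rpow_of_exponent_le hT
          rw [hκ]
          nlinarith [mul_pos hη hη]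
  have e2 : (X : ℝ) ^ 2 ≤ T ^ (4 : ℝ) := by
    have h1 : (X : ℝ) ^ 2 ≤ (T ^ 2) ^ 2 := by gcongr
    have h2 : (T ^ 2) ^ 2 = T ^ (4 : ℝ) := by
      rw [← pow_mul]; norm_cast
    rwa [h2] at h1
  have e7 : (X : ℝ) ^ 7 ≤ T ^ (14 : ℝ) := by
    have h1 : (X : ℝ) ^ 7 ≤ (T ^ 2) ^ 7 := by gcongr
    have h2 : (T ^ 2) ^ 7 = T ^ (14 : ℝ) := by
      rw [← pow_mul]; norm_cast
    rwa [h2] at h1
  have t2 : (X : ℝ) ^ 2 * T ^ (κ / 8) * Real.exp (-(T ^ κ / 4)) ≤ T ^ (-(κ / 8)) := by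
    have e3 : T ^ (κ / 8) ≤ T ^ (1 : ℝ) := Real.rpow_le_rpow_of_exponent_le hT (by linarith)
    have e4 : T ^ (4 : ℝ) * T ^ (1 : ℝ) * T ^ (-(6 : ℝ)) ≤ T ^ (-(κ / 8)) := by
      rw [← Real.rpow_add hT0, ← Real.rpow_add hT0]
      exact Real.rpow_le_rpow_of_exponent_le hT (by linarith)
    have e5 : Real.exp (-(T ^ κ / 4)) ≤ T ^ (-(6 : ℝ)) := by
      refine le_trans (le_of_eq ?_) hexp1
      ring_nf
    refine le_trans ?_ e4
    gcongr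
  have t3 : (X : ℝ) ^ 7 * Real.exp (-|y|) ≤ T ^ (-(κ / 8)) := by
    have e5 : Real.exp (-|y|) ≤ T ^ (-(15 : ℝ)) := by
      refine le_trans (Real.exp_le_exp.2 ?_) hexp2
      linarith
    have e4 : T ^ (14 : ℝ) * T ^ (-(15 : ℝ)) ≤ T ^ (-(κ / 8)) := by
      rw [← Real.rpow_add hT0]
      exact Real.rpow_le_rpow_of_exponent_le hT (by linarith)
    refine le_trans ?_ e4
    gcongr
  have hTp : 0 < T ^ (-(κ / 8)) := Real.rpow_pos_of_pos hT0 _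
  calc _ ≤ C * ((896 * C0 * Ce ^ 2) * (1 + |τ|) * T ^ (-(κ / 8))) + C * T ^ (-(κ / 8)) + C * T ^ (-(κ / 8)) := by
        gcongr
    _ = C * (896 * C0 * Ce ^ 2) * (1 + |τ|) * T ^ (-(κ / 8)) + 2 * C * (1 * T ^ (-(κ / 8))) := by ring
    _ ≤ C * (896 * C0 * Ce ^ 2) * (1 + |τ|) * T ^ (-(κ / 8)) + 2 * C * ((1 + |τ|) * T ^ (-(κ / 8))) := by
        have : 1 ≤ 1 + |τ| := by linarith [abs_nonneg τ]
        gcongr
    _ = _ := by ring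

lemma ev_sqrt : ∀ᶠ T : ℝ in atTop, ∀ X : ℕ, (X : ℝ) ≤ T ^ (1 + 1 / 100 : ℝ) → 2 * √(X : ℝ) ≤ T := by
  have h1 : Tendsto (fun T : ℝ => T ^ (1 / 4 : ℝ)) atTop atTop := tendsto_rpow_atTop (by norm_num)
  filter_upwards [h1.eventually_ge_atTop 2, eventually_ge_atTop 1] with T hT hT1 X hX
  have hT0 : 0 < T := by linarith
  have h2 : √(X : ℝ) ≤ T ^ (3 / 4 : ℝ) := by
    rw [Real.sqrt_le_left (by positivity), ← Real.rpow_natCast, ← Real.rpow_mul hT0.le]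
    refine hX.trans (Real.rpow_le_rpow_of_exponent_le hT1 ?_)
    norm_num
  calc 2 * √(X : ℝ) ≤ T ^ (1 / 4 : ℝ) * T ^ (3 / 4 : ℝ) := by gcongr
    _ = T := by rw [← Real.rpow_add hT0]; norm_num

lemma ev_log : ∀ᶠ T : ℝ in atTop, ∀ X : ℕ, (X : ℝ) ≤ T ^ (1 + 1 / 100 : ℝ) →
    (X : ℝ) ^ (1 / 4 : ℝ) * (2 * Real.pi * (1 + Real.log (1 + X))) ≤ T ^ (9 / 10 : ℝ) := by
  have h1 : Tendsto (fun T : ℝ => T ^ (1 / 10 : ℝ)) atTop atTop := tendsto_rpow_atTop (by norm_num)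
  have h2 : ∀ᶠ T : ℝ in atTop, 1 + 2 * Real.log T ≤ T ^ (1 / 10 : ℝ) := by
    have h3 : Tendsto (fun T : ℝ => T ^ (1 / 20 : ℝ)) atTop atTop := tendsto_rpow_atTop (by norm_num)
    filter_upwards [h3.eventually_ge_atTop 41, eventually_ge_atTop 1] with T hT hT1
    have hT0 : 0 < T := by linarith
    have h := log_T (e := 1 / 20) (by norm_num) hT1
    have e : T ^ (1 / 10 : ℝ) = T ^ (1 / 20 : ℝ) * T ^ (1 / 20 : ℝ) := by
      rw [← Real.rpow_add hT0]; norm_num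
    rw [e]
    refine h.trans ?_
    have : (1 : ℝ) + 2 / (1 / 20) = 41 := by norm_num
    rw [this]
    gcongr
  filter_upwards [h1.eventually_ge_atTop 20, h2, eventually_ge_atTop 2] with T hT hlT hT1 X hX
  have hT0 : 0 < T := by linarith
  have hT1' : 1 ≤ T := by linarith
  have hpi := Real.pi_lt_d2
  have hpi0 := Real.pi_pos
  have a1 : (X : ℝ) ^ (1 / 4 : ℝ) ≤ T ^ (1 / 2 : ℝ) := by
    have h3 : (X : ℝ) ^ (1 / 4 : ℝ) ≤ (T ^ (1 + 1 / 100 : ℝ)) ^ (1 / 4 : ℝ) :=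
      Real.rpow_le_rpow (by positivity) hX (by norm_num)
    rw [← Real.rpow_mul hT0.le] at h3
    exact h3.trans (Real.rpow_le_rpow_of_exponent_le hT1' (by norm_num))
  have a2 : Real.log (1 + X) ≤ 2 * (2 * Real.log T) := by
    have h3 : 1 + (X : ℝ) ≤ T ^ 4 := by
      have h4 : (X : ℝ) ≤ T ^ (2 : ℝ) := hX.trans (Real.rpow_le_rpow_of_exponent_le hT1' (by norm_num))
      have h5 : T ^ (2 : ℝ) = T ^ 2 := by norm_cast
      rw [h5] at h4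
      have h6 : T ^ 4 = T ^ 2 * T ^ 2 := by ring
      have h7 : 4 ≤ T ^ 2 := by nlinarith
      nlinarith
    have h4 := Real.log_le_log (by positivity) h3
    rw [Real.log_pow] at h4
    push_cast at h4
    linarith
  have hl := Real.log_nonneg hT1'
  have a3 : 2 * Real.pi * (1 + Real.log (1 + X)) ≤ T ^ (1 / 10 : ℝ) * T ^ (1 / 10 : ℝ) := by
    calc 2 * Real.pi * (1 + Real.log (1 + X)) ≤ 10 * (2 * (1 + 2 * Real.log T)) := by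
          have : 0 ≤ Real.log (1 + X) := Real.log_nonneg (by linarith [Nat.cast_nonneg (α := ℝ) X])
          nlinarith
      _ = 20 * (1 + 2 * Real.log T) := by ring
      _ ≤ T ^ (1 / 10 : ℝ) * T ^ (1 / 10 : ℝ) := by gcongr
  have h0 : 0 ≤ 2 * Real.pi * (1 + Real.log (1 + X)) := by
    have : 0 ≤ Real.log (1 + X) := Real.log_nonneg (by linarith [Nat.cast_nonneg (α := ℝ) X])
    positivity
  calc (X : ℝ) ^ (1 / 4 : ℝ) * (2 * Real.pi * (1 + Real.log (1 + X))) ≤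
      T ^ (1 / 2 : ℝ) * (T ^ (1 / 10 : ℝ) * T ^ (1 / 10 : ℝ)) := by gcongr
    _ ≤ T ^ (9 / 10 : ℝ) := by
        rw [← Real.rpow_add hT0, ← Real.rpow_add hT0]
        exact Real.rpow_le_rpow_of_exponent_le hT1' (by norm_num)

theorem t_CORE (hPH : S_PH) : S_CORE := by
  obtain ⟨η, C0, hη, hη1, hC0, hP⟩ := part_le hPH
  set κ : ℝ := η / 1000 with hκ
  have hκ0 : 0 < κ := by positivity
  have hκ1 : κ ≤ 1 / 4000 := by rw [hκ]; linarith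
  obtain ⟨C1, hC1, h1⟩ := rng_I hκ0 (by linarith)
  obtain ⟨C2, hC2, h2⟩ := rng_II hη hη1 hC0 hκ hP
  obtain ⟨C3, hC3, h3⟩ := rng_III hκ0 (by linarith)
  obtain ⟨C4, hC4, h4⟩ := Sg_small (σ := κ / 8) (by positivity) (by linarith)
  have hev : ∀ᶠ T : ℝ in atTop, (∀ X : ℕ, (X : ℝ) ≤ T ^ (1 + 1 / 100 : ℝ) → 2 * √(X : ℝ) ≤ T) ∧
      (∀ X : ℕ, (X : ℝ) ≤ T ^ (1 + 1 / 100 : ℝ) →
        (X : ℝ) ^ (1 / 4 : ℝ) * (2 * Real.pi * (1 + Real.log (1 + X))) ≤ T ^ (9 / 10 : ℝ)) ∧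
      Real.exp (-(κ / 16 * T ^ (κ / 2))) ≤ T ^ (-(6 : ℝ)) ∧ Real.exp (-(1 / 4 * T ^ κ)) ≤ T ^ (-(6 : ℝ)) ∧
      Real.exp (-(1 * T ^ (1 - κ))) ≤ T ^ (-(15 : ℝ)) := by
    filter_upwards [ev_sqrt, ev_log, exp_ev (κ := κ / 2) (a := κ / 16) (by positivity) (by positivity) 6,
      exp_ev (κ := κ) (a := 1 / 4) hκ0 (by norm_num) 6, exp_ev (κ := 1 - κ) (a := 1) (by linarith) (by norm_num) 15]
      with T a b c d e
    exact ⟨a, b, c, d, e⟩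
  obtain ⟨T0, hT0⟩ := eventually_atTop.1 hev
  set T1 : ℝ := max T0 1 with hT1
  have hT11 : 1 ≤ T1 := le_max_right _ _
  refine ⟨κ / 8, κ / 8, κ / 8, C1 + C2 + C3 + C4 * (T1 ^ 5 * (T1 ^ 2) ^ 12) * T1, by positivity, by linarith,
    by positivity, by linarith, by positivity, ?_, ?_⟩
  · have : 0 ≤ C4 * (T1 ^ 5 * (T1 ^ 2) ^ 12) * T1 := by positivity
    linarith
  intro T X τ y hT hX
  have hTp : 0 < T := by linarith
  have hX' : (X : ℝ) ≤ T ^ (1 + 1 / 100 : ℝ) := hX.trans (Real.rpow_le_rpow_of_exponent_le hT (by linarith))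
  have hX2 : (X : ℝ) ≤ T ^ 2 := by
    have h5 : T ^ (2 : ℝ) = T ^ 2 := by norm_cast
    rw [← h5]
    exact hX.trans (Real.rpow_le_rpow_of_exponent_le hT (by linarith))
  have hTk : 0 < T ^ (-(κ / 8)) := Real.rpow_pos_of_pos hTp _
  have hτ : 1 ≤ 1 + |τ| := by linarith [abs_nonneg τ]
  have hP4 : 0 ≤ C4 * (T1 ^ 5 * (T1 ^ 2) ^ 12) * T1 := by positivity
  have hfin : ∀ c : ℝ, 0 ≤ c → c ≤ C1 + C2 + C3 + C4 * (T1 ^ 5 * (T1 ^ 2) ^ 12) * T1 →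
      c * T ^ (-(κ / 8)) ≤ (C1 + C2 + C3 + C4 * (T1 ^ 5 * (T1 ^ 2) ^ 12) * T1) * (1 + |τ|) * T ^ (-(κ / 8)) := by
    intro c hc0 hc
    calc c * T ^ (-(κ / 8)) = c * 1 * T ^ (-(κ / 8)) := by ring
      _ ≤ _ := by gcongr
  rcases lt_or_ge T T1 with hTT | hTT
  · -- small `T`
    refine (h4 T τ y X hT).trans ?_
    have a1 : T ^ 5 * (X : ℝ) ^ 12 ≤ T1 ^ 5 * (T1 ^ 2) ^ 12 := by
      have : (X : ℝ) ≤ T1 ^ 2 := hX2.trans (by gcongr)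
      gcongr
    have a2 : 1 ≤ T1 * T ^ (-(κ / 8)) := by
      have b1 : T ^ (κ / 8) ≤ T1 := by
        calc T ^ (κ / 8) ≤ T ^ (1 : ℝ) := Real.rpow_le_rpow_of_exponent_le hT (by linarith)
          _ = T := Real.rpow_one T
          _ ≤ T1 := hTT.le
      rw [Real.rpow_neg hTp.le, ← div_eq_mul_inv, le_div_iff₀ (by positivity)]
      linarith
    refine le_trans ?_ (hfin (C4 * (T1 ^ 5 * (T1 ^ 2) ^ 12) * T1) hP4 (by linarith))
    calc C4 * (T ^ 5 * (X : ℝ) ^ 12) ≤ C4 * (T1 ^ 5 * (T1 ^ 2) ^ 12) * 1 := by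
          rw [mul_one]
          gcongr
      _ ≤ C4 * (T1 ^ 5 * (T1 ^ 2) ^ 12) * (T1 * T ^ (-(κ / 8))) := by gcongr
      _ = _ := by ring
  · obtain ⟨c1, c2, c3, c4, c5⟩ := hT0 T ((le_max_left _ _).trans hTT)
    rcases le_or_gt |y| (T ^ (1 - κ)) with hy | hy
    · refine (h1 T τ y X hT hX hX2 (c1 X hX') hy).trans (hfin C1 (by linarith) (by linarith))
    rcases le_or_gt (T ^ (1 + κ)) |y| with hy2 | hy2
    · refine (h3 T τ y X hT hX2 (c1 X hX') hy2 c3).trans (hfin C3 (by linarith) (by linarith))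
    have hXy : (X : ℝ) ^ (1 / 4 : ℝ) * (2 * Real.pi * (1 + Real.log (1 + X))) ≤ |y| :=
      (c2 X hX').trans ((Real.rpow_le_rpow_of_exponent_le hT (by linarith)).trans hy.le)
    have key : ∀ τ' y' : ℝ, |τ'| = |τ| → |y'| = |y| → y' ≤ 0 → ‖Sg X T (κ / 8) τ' y'‖ ≤
        (C1 + C2 + C3 + C4 * (T1 ^ 5 * (T1 ^ 2) ^ 12) * T1) * (1 + |τ|) * T ^ (-(κ / 8)) := by
      intro τ' y' e1 e2 hy'
      refine (h2 T τ' y' X hT hX hX2 (c1 X hX') hy' (by rw [e2]; exact hy.le) (by rw [e2]; exact hy2.le)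
        (by rw [e2]; exact hXy) c4 c5).trans ?_
      rw [e1]
      gcongr
      linarith
    rcases le_or_gt y 0 with h0 | h0
    · exact key τ y rfl rfl h0
    · have h5 := Sg_conj X hTp (κ / 8) τ y
      have h6 : ‖Sg X T (κ / 8) τ y‖ = ‖Sg X T (κ / 8) (-τ) (-y)‖ := by
        rw [← h5]
        exact (RCLike.norm_conj _).symm
      rw [h6]
      exact key (-τ) (-y) (abs_neg _) (abs_neg _) (by linarith)

end Pool.Agent.K1H51.DL
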