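import Pool.Agent.Y969.GP.Def

set_option autoImplicit false

/-!
Project DL (helper51): the mean of `∏ |ζ(1/2 + i α_j t)|²` for almost all `(α_1, ..., α_K)`, any `K`, with a power saving.
Definitions and statements of the pieces.
-/

namespace Pool.Agent.K1H51.DL

open MeasureTheory Set Filter Topology
open Complex (I)
open Pool.Agent.Y969.GP (ff ht lam PS)

noncomputable section

/-- the main term of `|ζ(1/2 + iu)|²` -/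
def Mz (u : ℝ) : ℝ := Real.log (u / (2 * Real.pi)) + 2 * Real.eulerMascheroniConstant

/-- the weight -/
def W (T u : ℝ) : ℝ := (u / T) ^ 4 * Real.exp (-(u / T))

/-- the twisted mean of `|ζ|²` minus its main term -/
def eh (T y : ℝ) : ℂ :=
  ∫ u in Ioi (0 : ℝ), (((ff u - Mz u) * W T u / u : ℝ) : ℂ) * Complex.exp (-(I * ((y * Real.log u : ℝ) : ℂ)))

/-- the sum over pairs -/
def Sg (X : ℕ) (T σ τ y : ℝ) : ℂ :=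
  (((T ^ 4)⁻¹ : ℝ) : ℂ) * Complex.Gamma (4 + σ + I * y) *
    ∑ p ∈ (PS X).filter (fun p => p.1 ≠ p.2),
      Complex.exp (-((1 / 2 + σ + I * τ) * ((Real.log (ht p) : ℝ) : ℂ))) *
        Complex.exp (-((4 + σ + I * y) * Complex.log (((T⁻¹ : ℝ) : ℂ) - I * ((lam p : ℝ) : ℂ))))

/-- the difference of the two products -/
def dP {K : ℕ} (α : Fin K → ℝ) (t : ℝ) : ℝ := ∏ j, ff (α j * t) - ∏ j, Mz (α j * t)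

/-- PH: the phase `log log (1 + x/μ)` -/
def S_PH : Prop := ∃ c0 C0 : ℝ, 0 < c0 ∧ 0 < C0 ∧ ∀ (J : ℕ) (μ : ℝ), 1 ≤ J → 0 < μ → ∃ φ : ℕ → ℝ → ℝ,
  (∀ t : ℝ, φ 0 t = max 1 (Real.log (1 + J / μ)) * Real.log (Real.log (1 + t / μ))) ∧
  (∀ m ≤ 7, ∀ t ∈ Icc (J : ℝ) (3 * J), HasDerivAt (φ m) (φ (m + 1) t) t) ∧
  (∀ m, 1 ≤ m → m ≤ 7 → ∀ t ∈ Icc (J : ℝ) (3 * J),
    c0 ≤ (-1) ^ (m + 1) * φ m t * (J : ℝ) ^ m ∧ (-1) ^ (m + 1) * φ m t * (J : ℝ) ^ m ≤ C0)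

/-- CORE: the sum over the pairs is small -/
def S_CORE : Prop := ∃ σ ε δ C : ℝ, 0 < σ ∧ σ ≤ 1 ∧ 0 < ε ∧ ε ≤ 1 / 100 ∧ 0 < δ ∧ 0 < C ∧
  ∀ (T : ℝ) (X : ℕ) (τ y : ℝ), 1 ≤ T → (X : ℝ) ≤ T ^ (1 + ε) →
    ‖Sg X T σ τ y‖ ≤ C * (1 + |τ|) * T ^ (-δ)

/-- SUP: the twisted means are small -/
def S_SUP : Prop := ∃ δ C : ℝ, 0 < δ ∧ δ ≤ 1 ∧ 0 < C ∧ ∀ T y : ℝ, 1 ≤ T → ‖eh T y‖ ≤ C * T ^ (-δ)

/-- OP: the operator with kernel `|ζ(1/2 + iβt)|²` minus the main term -/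
def S_OP : Prop := ∀ a b : ℝ, 0 < a → a < b → ∃ C : ℝ, 0 < C ∧ ∀ T Λ : ℝ, 1 ≤ T → (∀ y, ‖eh T y‖ ≤ Λ) →
  ∀ F : ℝ → ℂ, Measurable F → IntegrableOn (fun t => ‖F t‖ ^ 2) (Icc T (2 * T)) →
    ∫ β in a..b, ‖∫ t in T..(2 * T), F t * ((ff (β * t) - Mz (β * t) : ℝ) : ℂ)‖ ^ 2 ≤
      C * Λ ^ 2 * (T * ∫ t in T..(2 * T), ‖F t‖ ^ 2)

/-- L4: local fourth moments -/
def S_L4 : Prop := ∀ a b ε : ℝ, 0 < a → a < b → 0 < ε → ∃ C : ℝ, 0 < C ∧ ∀ t : ℝ, 1 ≤ t →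
  ∫ α in a..b, ff (α * t) ^ 2 ≤ C * t ^ ε

/-- VAR: the mean square over a box of dilations -/
def S_VAR : Prop := ∃ δ : ℝ, 0 < δ ∧ δ ≤ 1 ∧ ∀ (K : ℕ) (a b ε : ℝ), 0 < a → a < b → 0 < ε →
  ∃ C : ℝ, 0 < C ∧
    (∀ t : ℝ, 1 ≤ t → ∫ α in Icc (fun _ : Fin K => a) (fun _ => b), dP α t ^ 2 ≤ C * t ^ ε) ∧
    ∀ F : ℝ → ℂ, Measurable F → ∀ T S : ℝ, 1 ≤ T → T ≤ S → S ≤ 2 * T →
      IntegrableOn (fun t => ‖F t‖ ^ 2) (Icc T (2 * T)) →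
      ∫ α in Icc (fun _ : Fin K => a) (fun _ => b), ‖∫ t in T..S, F t * (dP α t : ℂ)‖ ^ 2 ≤
        C * T ^ (1 - 2 * δ + ε) * ∫ t in T..(2 * T), ‖F t‖ ^ 2

/-- FIN: the theorem -/
def S_FIN : Prop := ∃ δ : ℝ, 0 < δ ∧ ∀ (K : ℕ) (F : ℝ → ℂ), Measurable F →
  (∃ B : ℝ, ∀ T : ℝ, 1 ≤ T → IntegrableOn (fun t => ‖F t‖ ^ 2) (Icc 0 T) ∧
    ∫ t in (0 : ℝ)..T, ‖F t‖ ^ 2 ≤ B * T ^ (1 + δ)) →
  ∀ᵐ α : Fin K → ℝ, ∃ C : ℝ, ∀ T : ℝ, 1 ≤ T →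
    ‖(∫ t in (0 : ℝ)..T, F t * ((∏ j, ff (α j * t) : ℝ) : ℂ)) -
      ∫ t in (0 : ℝ)..T, F t * ((∏ j, Mz (|α j| * t) : ℝ) : ℂ)‖ ≤ C * T ^ (1 - δ)

end

end Pool.Agent.K1H51.DL
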